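import Pool.Agent.U192.NM.Main
import Pool.Agent.W619.TW.CP
import Pool.Agent.W300.PG.TRGE

/-!
The Campana-Peternell conjecture for varieties whose Kodaira and numerical dimensions are equal.
-/

set_option autoImplicit false
set_option linter.overlappingInstances false
set_option linter.unusedSectionVars false

open FF Pool.Agent.W602.GT Pool.Agent.W603.LV
open Pool.Agent.W619.TW (NumNeg NumLe IsPsefRest DivKodGe)

namespace Pool.Agent.U192.NM

variable {K : Type} [Field K] [Algebra ℂ K]

theorem kodTr_of_kod {n h : ℕ} (hk : KodGe ℂ K n (fun _ => False) h) :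
    Pool.Agent.W619.Y.KodTr ℂ K n h := by
  obtain ⟨N, hN, ω, hω, D, hD, hind⟩ := hk
  refine ⟨N, hN, ω, fun l => ⟨(hω l).1, fun v hv _ G hG => ?_, fun v _ hv => hv.elim⟩, D,
    fun l => ?_, hind⟩
  · rcases (hω l).2.2 v hv (fun h => h) G hG with h1 | h1
    · exact Or.inl h1
    · right
      exact ⟨1, by simp, one_ne_zero, by simpa using h1⟩
  · refine Fin.cases hD (fun i => ?_) l
    intro h0
    have := hind.ne_zero i
    rw [h0, zero_div] at this
    exact this rfl

/-- **The Campana-Peternell conjecture** if the Kodaira and the numerical dimension are equal. -/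
theorem cp_of_abu {n d : ℕ} (hn : Algebra.trdeg ℂ K = n)
    (hd : NumNeg ℂ K n (fun _ => False) ∨ KodGe ℂ K n (fun _ => False) d)
    (hnum : NumLe ℂ K n (fun _ => False) d) {q : ℕ} (hq : 1 ≤ q) {a : Place ℂ K → ℤ}
    (hps : IsPsefRest ℂ K n (fun _ => False) q a) {h : ℕ} (hA : DivKodGe ℂ K n a h) :
    Pool.Agent.W619.TW.KodGe ℂ K n (fun _ => False) h := by
  rcases hd with h1 | h1
  · exact absurd hA (Pool.Agent.W619.TW.cp_of_neg h1 hq hps)
  · exact Pool.Agent.W619.TW.cp_of_num
      (Pool.Agent.W300.PG.TRGE.main.{0, 0} ℂ K n d hn (kodTr_of_kod h1)) hnum hq hps hA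

end Pool.Agent.U192.NM
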