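import Pool.Agent.U192.NM.Tower
import Pool.Agent.W619.Y.Parts
import Pool.Agent.R882.UC

/-!
Norms of pluricanonical forms: the main theorem.
-/

set_option autoImplicit false
set_option linter.overlappingInstances false
set_option linter.unusedSectionVars false

open FF Pool.Agent.W602.GT Pool.Agent.W603.LV Pool.Agent.W619.PQ Pool.Agent.Y172
open Pool.Agent.W619.TW (IsSec NumNeg NumLe HasIndep Dom)
open Pool.Agent.W619.Y (BdUp)

namespace Pool.Agent.U192.NM

section

variable {K : Type} [Field K] [Algebra ℂ K]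

/-- a variety with a pluricanonical form has numerical dimension at least `0` -/
theorem not_neg_of_kod {n h : ℕ} (hk : KodGe ℂ K n (fun _ => False) h) :
    ¬ NumNeg ℂ K n (fun _ => False) := by
  intro hneg
  obtain ⟨m0, hm0⟩ := hneg {1}
  obtain ⟨N, hN, ω, hω, D, hD, -⟩ := hk
  have h1 : IsSec ℂ K n (fun _ => False) {1} (N * m0) 1 (fun G => ω 0 G ^ m0) := by
    refine ⟨?_, fun v hv _ G hG => ?_, fun v _ h => h.elim⟩
    · intro A G
      have h2 : ω 0 (fun i => ∑ j, A i j • G j) = A.det ^ N * ω 0 G := (hω 0).1 A G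
      change ω 0 _ ^ m0 = _
      rw [h2, mul_pow, ← pow_mul]
    · by_cases h0 : ω 0 G ^ m0 = 0
      · exact Or.inl h0
      right
      refine ⟨1, Finset.mem_singleton_self _, one_ne_zero, ?_⟩
      have h2 : Ge v 0 (ω 0 G) := (hω 0).2.2 v hv (fun h => h) G hG
      have h3 := (h2.pow m0).resolve_left h0
      rw [v.ord_one]
      simpa using h3
  refine hm0 (N * m0) (Nat.le_mul_of_pos_left _ hN) ⟨fun _ => fun G => ω 0 G ^ m0, ?_, fun _ => h1⟩
  rw [Fintype.linearIndependent_iff]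
  intro g hg i
  have h2 := congrFun hg D
  rw [Finset.sum_apply, Fin.sum_univ_one, Pi.smul_apply, Pi.zero_apply, smul_eq_zero] at h2
  rw [Subsingleton.elim i 0]
  exact h2.resolve_right (pow_ne_zero _ hD)

theorem trdeg_adj {L : Type} [Field L] [Algebra ℂ L] {a : ℕ} {x : Fin a → L}
    (h : AlgebraicIndependent ℂ x) :
    Algebra.trdeg ℂ (IntermediateField.adjoin ℂ (Set.range x)) = a := by
  obtain ⟨x', hx'⟩ : ∃ x' : Fin a → IntermediateField.adjoin ℂ (Set.range x),
      ∀ j, (x' j : L) = x j :=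
    ⟨fun j => ⟨x j, IntermediateField.subset_adjoin _ _ ⟨j, rfl⟩⟩, fun _ => rfl⟩
  have hi : AlgebraicIndependent ℂ x' := by
    refine AlgebraicIndependent.of_comp (IntermediateField.adjoin ℂ (Set.range x)).val ?_
    have h1 : (fun j => (IntermediateField.adjoin ℂ (Set.range x)).val (x' j)) = x :=
      funext fun j => hx' j
    change AlgebraicIndependent ℂ fun j => (IntermediateField.adjoin ℂ (Set.range x)).val (x' j)
    rwa [h1]
  have hb : IsTranscendenceBasis ℂ x' := by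
    rw [hi.isTranscendenceBasis_iff_isAlgebraic]
    refine ⟨fun z => ?_⟩
    have h2 : ∀ y ∈ Algebra.adjoin ℂ (Set.range x), ∀ hy : y ∈ IntermediateField.adjoin ℂ
        (Set.range x), IsAlgebraic (Algebra.adjoin ℂ (Set.range x'))
          (⟨y, hy⟩ : IntermediateField.adjoin ℂ (Set.range x)) := by
      intro y hy hy'
      have h3 : (⟨y, hy'⟩ : IntermediateField.adjoin ℂ (Set.range x)) ∈
          Algebra.adjoin ℂ (Set.range x') := by
        have h4 : Algebra.adjoin ℂ (Set.range x) = (Algebra.adjoin ℂ (Set.range x')).map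
            (IntermediateField.adjoin ℂ (Set.range x)).val := by
          rw [AlgHom.map_adjoin]
          congr 1
          ext w
          constructor
          · rintro ⟨j, rfl⟩
            exact ⟨x' j, ⟨j, rfl⟩, hx' j⟩
          · rintro ⟨_, ⟨j, rfl⟩, rfl⟩
            exact ⟨j, (hx' j).symm⟩
        rw [h4] at hy
        obtain ⟨y', hy1, hy2⟩ := hy
        have h5 : y' = ⟨y, hy'⟩ := Subtype.ext hy2
        rw [← h5]
        exact hy1
      exact isAlgebraic_algebraMap (⟨_, h3⟩ : Algebra.adjoin ℂ (Set.range x'))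
    obtain ⟨r, hr, s, hs, hz⟩ := IntermediateField.mem_adjoin_iff_div.1 z.2
    have hr' := IntermediateField.algebra_adjoin_le_adjoin ℂ (Set.range x) hr
    have hs' := IntermediateField.algebra_adjoin_le_adjoin ℂ (Set.range x) hs
    have h6 : z = ⟨r, hr'⟩ * (⟨s, hs'⟩)⁻¹ := Subtype.ext (by
      rw [hz, div_eq_mul_inv]
      rfl)
    rw [h6]
    exact (h2 r hr hr').mul (h2 s hs hs').inv
  rw [← hb.cardinalMk_eq_trdeg, Cardinal.mk_fin]

theorem pow_indep {E L : Type} [Field E] [Field L] [Algebra E L] {x c : L}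
    (hx : Transcendental E x) (hc : c ≠ 0) (N : ℕ) :
    LinearIndependent E fun i : Fin N => c * x ^ (i : ℕ) := by
  classical
  rw [Fintype.linearIndependent_iff]
  intro g hg
  obtain ⟨P, hP⟩ : ∃ P : Polynomial E, P = ∑ i : Fin N, Polynomial.monomial (i : ℕ) (g i) :=
    ⟨_, rfl⟩
  have h1 : Polynomial.aeval x P = 0 := by
    have h2 : c * Polynomial.aeval x P = 0 := by
      rw [hP, map_sum, Finset.mul_sum, ← hg]
      refine Finset.sum_congr rfl fun i _ => ?_
      rw [Polynomial.aeval_monomial, Algebra.smul_def]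
      ring
    exact (mul_eq_zero.1 h2).resolve_left hc
  have h2 : P = 0 := by
    by_contra hne
    exact hx ⟨P, hne, h1⟩
  intro i
  have h3 := congrArg (fun Q : Polynomial E => Q.coeff i) hP
  simp only [h2, Polynomial.coeff_zero, Polynomial.finsetSum_coeff,
    Polynomial.coeff_monomial] at h3
  rw [Finset.sum_eq_single i (fun j _ hj => if_neg fun h => hj (Fin.ext h))
    (fun h => absurd (Finset.mem_univ i) h), if_pos rfl] at h3
  exact h3.symm

end

section

variable {L Λ F : Type} [Field L] [Field Λ] [Field F] [Algebra ℂ L]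
  [Algebra.EssFiniteType ℂ L] (E : IntermediateField ℂ L)
  [Algebra E Λ] [Algebra Λ F] [Algebra L F] [IsScalarTower E Λ F] [IsScalarTower E L F]
  [Algebra ℂ Λ] [Algebra ℂ F] [IsScalarTower ℂ Λ F] [IsScalarTower ℂ L F]
  [IsScalarTower ℂ E Λ]

/-- **The ratios of pluricanonical forms** are constant on the fibres of a fibration whose geometric
generic fibre has numerical dimension at most `0`. -/
theorem ratio_mem {d r m : ℕ} (hE : Algebra.trdeg ℂ E = d)
    (hn : Algebra.trdeg ℂ L = (d + (r + 1) : ℕ)) [Algebra.IsAlgebraic E Λ]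
    (hgenF : IntermediateField.adjoin Λ (Set.range (algebraMap L F)) = ⊤)
    (hcl : ∀ z : L, IsAlgebraic E z → z ∈ E)
    (hnum : NumLe Λ F (r + 1) (fun _ => False) 0) (hm : 1 ≤ m)
    {θ θ' : (Fin (d + (r + 1)) → Derivation ℂ L L) → L} (hθ : IsPluri m θ) (hθ' : IsPluri m θ')
    (hreg : ∀ Q : Place ℂ L, Divisorial (d + (r + 1)) Q →
      ∀ G : Fin (d + (r + 1)) → Derivation ℂ L L, (∀ i, DerReg Q (G i)) → Ge Q 0 (θ G))
    (hreg' : ∀ Q : Place ℂ L, Divisorial (d + (r + 1)) Q →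
      ∀ G : Fin (d + (r + 1)) → Derivation ℂ L L, (∀ i, DerReg Q (G i)) → Ge Q 0 (θ' G))
    {D : Fin (d + (r + 1)) → Derivation ℂ L L} (hD : θ D ≠ 0) : θ' D / θ D ∈ E := by
  classical
  have hΛ0 : CharZero Λ := charZero_of_injective_algebraMap (algebraMap ℂ Λ).injective
  by_contra hcon
  obtain ⟨x, hx⟩ : ∃ x, x = θ' D / θ D := ⟨_, rfl⟩
  rw [← hx] at hcon
  have htr : Transcendental E x := fun halg => hcon (hcl x halg)
  have hess : Algebra.EssFiniteType ℂ L := inferInstance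
  have hLK := Pool.Agent.Y174.trdeg_LK (L := E) hE hn
  obtain ⟨t, ht⟩ := Pool.Agent.W636.PG.exists_basis ℂ E d hE
  obtain ⟨y, hy⟩ := Pool.Agent.W636.PG.exists_basis E L (r + 1) hLK
  have hZ := Pool.Agent.Y174.basis_append ht hy
  obtain ⟨D0, hD0⟩ := Pool.Agent.W636.PG.exists_duals ℂ L (d + (r + 1)) _ hZ
  obtain ⟨C, hC⟩ := Pool.Agent.Y174.fib_count (Λ := Λ) (F := F) hess hgenF
    (fun z hz => ⟨⟨z, hcl z hz.isAlgebraic⟩, rfl⟩) hE hn ht hy hD0
    Pool.Agent.Y174.isPullFib_zero (Pool.Agent.Y174.pairNum_zero.2 hnum) {1}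
  have h1 : θ D = _ := pluri_coord hZ hD0 hθ D
  have h1' : θ' D = _ := pluri_coord hZ hD0 hθ' D
  have hθ0 : θ D0 ≠ 0 := by
    intro h0
    apply hD
    rw [h1, h0, mul_zero]
  have hθ0' : θ' D0 = x * θ D0 := by
    have h2 : θ' D = x * θ D := by
      rw [hx, div_mul_cancel₀ _ hD]
    rw [h1, h1'] at h2
    have h3 : (Matrix.of fun i j => D i
      ((Fin.append (algebraMap E L ∘ t) y : Fin (d + (r + 1)) → L) j) :
      Matrix (Fin (d + (r + 1))) (Fin (d + (r + 1))) L).det ^ m ≠ 0 := by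
      intro h0
      apply hD
      rw [h1, h0, zero_mul]
    refine mul_left_cancel₀ h3 ?_
    rw [h2]
    ring
  obtain ⟨ω, hω⟩ : ∃ ω : Fin (C + 2) → (Fin (d + (r + 1)) → Derivation ℂ L L) → L,
      ∀ i, ω i = fun G => θ G ^ (C + 1 - i) * θ' G ^ (i : ℕ) := ⟨_, fun _ => rfl⟩
  have hsec : ∀ i, IsSec ℂ L (d + (r + 1)) (fun _ => False) {1} (m * (C + 1)) 1 (ω i) := by
    intro i
    have hi : (i : ℕ) ≤ C + 1 := Nat.lt_succ_iff.1 i.2
    rw [hω]
    refine ⟨?_, fun v hv _ G hG => ?_, fun v _ h => h.elim⟩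
    · intro A G
      have h2 : θ (fun i => ∑ j, A i j • G j) = A.det ^ m * θ G := hθ A G
      have h3 : θ' (fun i => ∑ j, A i j • G j) = A.det ^ m * θ' G := hθ' A G
      change θ _ ^ _ * θ' _ ^ _ = _
      have h4 : m * (C + 1) = m * (C + 1 - i) + m * i := by
        rw [← mul_add, Nat.sub_add_cancel hi]
      rw [h2, h3, h4, pow_add, mul_pow, mul_pow, ← pow_mul, ← pow_mul]
      ring
    · by_cases h0 : θ G ^ (C + 1 - i) * θ' G ^ (i : ℕ) = 0
      · exact Or.inl h0
      right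
      refine ⟨1, Finset.mem_singleton_self _, one_ne_zero, ?_⟩
      have h3 := (((hreg v hv G hG).pow (C + 1 - i)).mul
        ((hreg' v hv G hG).pow (i : ℕ))).resolve_left h0
      rw [v.ord_one]
      simpa using h3
  have hrk := hC (m * (C + 1)) (C + 2) (Nat.mul_pos hm (Nat.succ_pos _)) ω fun i =>
    Pool.Agent.Y174.sec_zero.2 (hsec i)
  rw [pow_zero, mul_one] at hrk
  have hli : LinearIndependent E fun i => ω i D0 := by
    have h2 : (fun i => ω i D0) = fun i : Fin (C + 2) => θ D0 ^ (C + 1) * x ^ (i : ℕ) := by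
      funext i
      have hi : (i : ℕ) ≤ C + 1 := Nat.lt_succ_iff.1 i.2
      rw [hω]
      change θ D0 ^ (C + 1 - i) * θ' D0 ^ (i : ℕ) = _
      have h4 : θ D0 ^ (C + 1) = θ D0 ^ (C + 1 - i) * θ D0 ^ (i : ℕ) := by
        rw [← pow_add, Nat.sub_add_cancel hi]
      rw [hθ0', h4, mul_pow]
      ring
    rw [h2]
    exact pow_indep htr (pow_ne_zero _ hθ0) _
  rw [finrank_span_eq_card hli, Fintype.card_fin] at hrk
  omega

end

section

variable {L : Type} [Field L] [Algebra ℂ L]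

/-- **Forms which are positive over the base.** `E` is the function field of the base. The form `θ`
is regular at all prime divisors `Q`, and if the base is not constant along `Q` then its order along
`Q` is at least `m (c - 1) + b Q`, where `c` is the multiplicity of the fibres along `Q`. -/
def BasePos (E : IntermediateField ℂ L) (n m : ℕ) (b : Place ℂ L → ℤ)
    (θ : (Fin n → Derivation ℂ L L) → L) : Prop :=
  ∀ Q : Place ℂ L, Divisorial n Q → ∀ G : Fin n → Derivation ℂ L L, (∀ i, DerReg Q (G i)) →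
    θ G ≠ 0 → 0 ≤ Q.ord (θ G) ∧ ∀ c : ℕ, (∃ z ∈ E, Q.ord z ≠ 0) → (∀ z ∈ E, (c : ℤ) ∣ Q.ord z) →
      (m : ℤ) * (c - 1) + b Q ≤ Q.ord (θ G)

theorem BasePos.reg {E : IntermediateField ℂ L} {n m : ℕ} {b : Place ℂ L → ℤ}
    {θ : (Fin n → Derivation ℂ L L) → L} (h : BasePos E n m b θ) (Q : Place ℂ L)
    (hQ : Divisorial n Q) (G : Fin n → Derivation ℂ L L) (hG : ∀ i, DerReg Q (G i)) :
    Ge Q 0 (θ G) := by
  by_cases h0 : θ G = 0
  · exact Or.inl h0
  · exact Or.inr (h Q hQ G hG h0).1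

end

section

variable {K L Λ F : Type} [Field K] [Field L] [Field Λ] [Field F] [Algebra ℂ K] [Algebra ℂ L]
  [Algebra K L] [IsScalarTower ℂ K L] [FiniteDimensional K L]
  [Algebra.EssFiniteType ℂ K] [Algebra.EssFiniteType ℂ L] (E : IntermediateField ℂ L)

/-- the norms, for a form with the right orders at all places -/
theorem kod_of_pos {n m a : ℕ} (hm : 1 ≤ m) (hn : Algebra.trdeg ℂ L = n)
    {κ : ℕ} (X : Fin κ → Finset L) (hX : IntermediateField.adjoin ℂ (⋃ i, (X i : Set L)) = E)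
    {θ : Fin (a + 1) → (Fin n → Derivation ℂ L L) → L} (hθ : ∀ j, IsPluri m (θ j))
    (hpos : ∀ j, BasePos E n m (fun Q => ∑ i, 2 * m * ((dg K X i : ℤ) - 1) * pol (X i) Q) (θ j))
    {D : Fin n → Derivation ℂ L L} (hD : θ 0 D ≠ 0)
    (hind : AlgebraicIndependent ℂ fun j : Fin a => θ j.succ D / θ 0 D)
    (hrE : ∀ j, θ j D / θ 0 D ∈ E) (hh : HorReg K E n m (θ 0)) :
    KodGe ℂ K n (fun _ => False) a := by
  classical
  have hcK : CharZero K := charZero_of_injective_algebraMap (algebraMap ℂ K).injective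
  have hXE : ∀ i, ∀ z ∈ X i, z ∈ E := by
    intro i z hz
    rw [← hX]
    exact IntermediateField.subset_adjoin _ _ (Set.mem_iUnion.2 ⟨i, hz⟩)
  have hE : ∀ z ∈ E, z ∈ Lv K X κ := by
    have h1 : E ≤ (Lv K X κ).restrictScalars ℂ := by
      rw [← hX, IntermediateField.adjoin_le_iff]
      intro z hz
      obtain ⟨i, hi⟩ := Set.mem_iUnion.1 hz
      have h2 : z ∈ Lv K X κ := by
        unfold Lv
        exact IntermediateField.subset_adjoin _ _ ⟨i, i.2, hi⟩
      exact h2
    exact fun z hz => h1 hz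
  obtain ⟨δ, f, hf⟩ := exists_basis_pol K hXE hE
  let Ω := IntermediateField.normalClosure K L (AlgebraicClosure L)
  have hfin : FiniteDimensional K Ω := inferInstance
  have hnorm : Normal K Ω := inferInstance
  have hgal : IsGalois K Ω := IsGalois.mk
  have ht1 : IsScalarTower ℂ (Lv K X κ) L := IsScalarTower.of_algebraMap_eq fun _ => rfl
  let ik : Algebra ℂ Ω := ((algebraMap L Ω).comp (algebraMap ℂ L)).toAlgebra
  have ht2 : IsScalarTower ℂ L Ω := IsScalarTower.of_algebraMap_eq fun _ => rfl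
  have ht3 : IsScalarTower ℂ K Ω := IsScalarTower.of_algebraMap_eq fun c => by
    change algebraMap L Ω (algebraMap ℂ L c) = _
    rw [IsScalarTower.algebraMap_apply ℂ K L, ← IsScalarTower.algebraMap_apply K L Ω]
  have ht4 : IsScalarTower ℂ (Lv K X κ) Ω := IsScalarTower.of_algebraMap_eq fun c => by
    change algebraMap L Ω (algebraMap ℂ L c) = _
    rw [IsScalarTower.algebraMap_apply (Lv K X κ) L Ω]
    rfl
  -- the values
  obtain ⟨y, D1, hy, hD1⟩ := exists_crd hn
  have hθval : ∀ (j : Fin (a + 1)) G, θ j G = (θ j D / θ 0 D) * θ 0 G := by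
    intro j G
    have h1 := pluri_coord hy hD1 (hθ j) D
    have h2 := pluri_coord hy hD1 (hθ 0) D
    have h3 := pluri_coord hy hD1 (hθ j) G
    have h4 := pluri_coord hy hD1 (hθ 0) G
    have h5 : (Matrix.of fun i j => D i (y j) : Matrix (Fin n) (Fin n) L).det ^ m ≠ 0 := by
      intro h0
      apply hD
      rw [h2, h0, zero_mul]
    have h6 : θ 0 D1 ≠ 0 := by
      intro h0
      apply hD
      rw [h2, h0, mul_zero]
    rw [h1, h2, h3, h4]
    field_simp
  -- the factors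
  let ι : Type := {g : L // g ∈ E ∧ g ≠ 0 ∧
    VertReg E (Lv K X κ) n m (fun j => algebraMap (Lv K X κ) L (f j)) (θ 0) g}
  have hwt : ∀ Q : Place ℂ L, ∑ i, 2 * (m : ℤ) * ((dg K X i : ℤ) - 1) * pol (X i) Q =
      2 * m * wt K X κ Q := by
    intro Q
    unfold wt
    rw [Finset.mul_sum]
    refine Finset.sum_congr rfl fun i _ => ?_
    rw [if_pos i.2]
    ring
  have hvert : ∀ g : L, g ∈ E → g ≠ 0 → (∀ Q : Place ℂ L, Divisorial n Q →
      ∀ G : Fin n → Derivation ℂ L L, (∀ i, DerReg Q (G i)) → θ 0 G ≠ 0 →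
      ∀ c : ℕ, (∃ z ∈ E, Q.ord z ≠ 0) → (∀ z ∈ E, (c : ℤ) ∣ Q.ord z) →
      (m : ℤ) * (c - 1) + 2 * m * wt K X κ Q ≤ Q.ord (g * θ 0 G)) →
      VertReg E (Lv K X κ) n m (fun j => algebraMap (Lv K X κ) L (f j)) (θ 0) g := by
    intro g hgE hg0 hg Q hQ hEQ c hc j G hG
    by_cases h0 : θ 0 G = 0
    · exact Or.inl h0
    right
    have h1 := hg Q hQ G hG h0 c hEQ fun z hz => hc ⟨z, hE z hz⟩
    rw [Q.ord_mul hg0 h0] at h1
    have h2 : algebraMap (Lv K X κ) L (f j) ≠ 0 := by
      rw [Ne, map_eq_zero]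
      exact f.ne_zero j
    have h3 := ((hf j).2 Q).resolve_left h2
    have h4 : 2 * (m : ℤ) * -wt K X κ Q ≤ 2 * m * Q.ord (algebraMap (Lv K X κ) L (f j)) :=
      mul_le_mul_of_nonneg_left h3 (by positivity)
    linarith
  have hone : VertReg E (Lv K X κ) n m (fun j => algebraMap (Lv K X κ) L (f j)) (θ 0) 1 := by
    refine hvert 1 (one_mem _) one_ne_zero fun Q hQ G hG h0 c hEQ hc => ?_
    rw [one_mul, ← hwt]
    exact (hpos 0 Q hQ G hG h0).2 c hEQ hc
  refine kod_of_norm (K := K) (M := Lv K X κ) (L := L) Ω f E hm hn (fun j => (hf j).1) (hθ 0)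
    ⟨D, hD⟩ hh (ι := ι) (fun g => g.1) (fun g => g.2.1) (fun g => g.2.2.1) (fun g => g.2.2.2)
    (fun j : Fin a => θ j.succ D / θ 0 D) ?_ ⟨1, one_mem _, one_ne_zero, hone⟩ (s := 1) le_rfl ?_
  · exact trdeg_adj hind
  · intro j c hne
    refine ⟨⟨algebraMap ℂ L c - θ j.succ D / θ 0 D, ?_, hne, ?_⟩, by simp⟩
    · exact sub_mem (E.algebraMap_mem c) (hrE _)
    · refine hvert _ (sub_mem (E.algebraMap_mem c) (hrE _)) hne fun Q hQ G hG h0 c' hEQ hc => ?_
      have h1 : (algebraMap ℂ L c - θ j.succ D / θ 0 D) * θ 0 G =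
          algebraMap ℂ L c * θ 0 G + -θ j.succ G := by
        rw [hθval j.succ G]
        ring
      have h2 : ∀ l : Fin (a + 1), Ge Q ((m : ℤ) * (c' - 1) + 2 * m * wt K X κ Q) (θ l G) := by
        intro l
        by_cases h3 : θ l G = 0
        · exact Or.inl h3
        · right
          rw [← hwt]
          exact (hpos l Q hQ G hG h3).2 c' hEQ hc
      rw [h1]
      have h3 : Ge Q ((m : ℤ) * (c' - 1) + 2 * m * wt K X κ Q)
          (algebraMap ℂ L c * θ 0 G + -θ j.succ G) := by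
        refine Ge.add ?_ (h2 _).neg
        have h4 : Ge Q 0 (algebraMap ℂ L c) := Pool.Agent.W603.LV.Ge.const c
        have h5 := h4.mul (h2 0)
        rwa [zero_add] at h5
      refine h3.resolve_left ?_
      rw [← h1]
      exact mul_ne_zero hne h0

variable [Algebra E Λ] [Algebra Λ F] [Algebra L F] [IsScalarTower E Λ F] [IsScalarTower E L F]
  [Algebra ℂ Λ] [Algebra ℂ F] [IsScalarTower ℂ Λ F] [IsScalarTower ℂ L F]
  [IsScalarTower ℂ E Λ]

/-- **Abundance for varieties dominated by fibre spaces.** -/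
theorem abu {d r m : ℕ} (hm : 1 ≤ m) (hE : Algebra.trdeg ℂ E = d)
    (hn : Algebra.trdeg ℂ L = (d + (r + 1) : ℕ)) [Algebra.IsAlgebraic E Λ]
    (hgenF : IntermediateField.adjoin Λ (Set.range (algebraMap L F)) = ⊤)
    (hcl : ∀ z : L, IsAlgebraic E z → z ∈ E)
    (hnum : NumLe Λ F (r + 1) (fun _ => False) 0)
    {κ : ℕ} (X : Fin κ → Finset L) (hX : IntermediateField.adjoin ℂ (⋃ i, (X i : Set L)) = E)
    {θ : Fin (d + 1) → (Fin (d + (r + 1)) → Derivation ℂ L L) → L} (hθ : ∀ j, IsPluri m (θ j))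
    (hpos : ∀ j, BasePos E (d + (r + 1)) m
      (fun Q => ∑ i, 2 * m * ((dg K X i : ℤ) - 1) * pol (X i) Q) (θ j))
    {D : Fin (d + (r + 1)) → Derivation ℂ L L} (hD : θ 0 D ≠ 0)
    (hind : AlgebraicIndependent ℂ fun j : Fin d => θ j.succ D / θ 0 D) :
    [¬ NumNeg ℂ K (d + (r + 1)) (fun _ => False), KodGe ℂ K (d + (r + 1)) (fun _ => False) 0,
      KodGe ℂ K (d + (r + 1)) (fun _ => False) d, HorReg K E (d + (r + 1)) m (θ 0)].TFAE ∧
    NumLe ℂ K (d + (r + 1)) (fun _ => False) d := by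
  have hΛ0 : CharZero Λ := charZero_of_injective_algebraMap (algebraMap ℂ Λ).injective
  have hnK : Algebra.trdeg ℂ K = (d + (r + 1) : ℕ) := Pool.Agent.Y184.NT.trdeg_below (K := L) hn
  constructor
  · tfae_have 1 → 4 := fun h => horReg (Λ := Λ) (F := F) E hE hn hgenF hcl hnum h hm (hθ 0)
      one_ne_zero (one_mem E) fun Q hQ G hG => by
        rw [one_mul]
        exact (hpos 0).reg Q hQ G hG
    tfae_have 4 → 3 := fun h => kod_of_pos E hm hn X hX hθ hpos hD hind
      (fun j => ratio_mem (Λ := Λ) (F := F) E hE hn hgenF hcl hnum hm (hθ 0) (hθ j) (hpos 0).reg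
        (hpos j).reg hD) h
    tfae_have 3 → 2 := fun h => Pool.Agent.R882.UA.kod_mono h (Nat.zero_le _)
    tfae_have 2 → 1 := fun h => not_neg_of_kod h
    tfae_finish
  · have hess : Algebra.EssFiniteType ℂ E := by
      rw [IntermediateField.essFiniteType_iff, ← hX]
      classical
      refine ⟨Finset.univ.biUnion X, ?_⟩
      congr 1
      ext z
      simp
    have h1 : NumLe ℂ L (d + (r + 1)) (fun _ => False) (d + 0) :=
      Pool.Agent.Y174.easy_add (L := E) (Λ := Λ) (F := F) hess inferInstance hgenF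
        (fun z hz => ⟨⟨z, hcl z hz.isAlgebraic⟩, rfl⟩) hE hn hnum
    have h2 := (Pool.Agent.W619.Y.pTRANS.{0, 0} ℂ K L (d + (r + 1)) hnK (fun y hy => fd_basis hy)
      (fun _ => False)).2.2 d
    have h3 : BdUp (fun _ : Place ℂ K => False) = (fun _ : Place ℂ L => False) := by
      funext w
      exact propext ⟨fun ⟨_, _, _, h⟩ => h, False.elim⟩
    rw [h3] at h2
    exact h2 h1

end

end Pool.Agent.U192.NM
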