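import Pool.Agent.U192.NM.Rot

/-!
Norms of pluricanonical forms: the discriminant.
-/

set_option autoImplicit false
set_option linter.overlappingInstances false
set_option linter.unusedSectionVars false

open FF Pool.Agent.W602.GT Pool.Agent.W603.LV Pool.Agent.W619.PQ

namespace Pool.Agent.U192.NM

section

variable {K M Ω : Type} [Field K] [CharZero K] [Field M] [Field Ω] [Algebra K M] [Algebra K Ω]
  [Algebra M Ω] [IsScalarTower K M Ω] [FiniteDimensional K M] [FiniteDimensional K Ω]
  [IsGalois K Ω]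

/-- composition of an embedding with an automorphism -/
noncomputable def act (g : Ω ≃ₐ[K] Ω) : (M →ₐ[K] Ω) ≃ (M →ₐ[K] Ω) where
  toFun τ := (g : Ω →ₐ[K] Ω).comp τ
  invFun τ := (g.symm : Ω →ₐ[K] Ω).comp τ
  left_inv := fun σ => by
    ext x
    simp
  right_inv := fun σ => by
    ext x
    simp

theorem act_apply (g : Ω ≃ₐ[K] Ω) (τ : M →ₐ[K] Ω) (x : M) : act g τ x = g (τ x) := rfl

theorem act_pow (g : Ω ≃ₐ[K] Ω) (r : ℕ) (τ : M →ₐ[K] Ω) (x : M) :
    ((act g : Equiv.Perm (M →ₐ[K] Ω)) ^ r) τ x = (g ^ r) (τ x) := by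
  induction r generalizing τ x with
  | zero => rfl
  | succ r ih =>
    rw [pow_succ', pow_succ']
    change act g (((act g : Equiv.Perm (M →ₐ[K] Ω)) ^ r) τ) x = g ((g ^ r) (τ x))
    rw [act_apply, ih]

/-- the automorphisms act transitively on the embeddings -/
theorem exists_act (τ : M →ₐ[K] Ω) : ∃ g : Ω ≃ₐ[K] Ω,
    act g (IsScalarTower.toAlgHom K M Ω) = τ := by
  have hn : Normal K Ω := inferInstance
  let φ : Ω →ₐ[K] Ω := AlgHom.liftNormal (F := K) (K₁ := M) (K₂ := Ω) τ Ω
  refine ⟨AlgEquiv.ofBijective φ (AlgHom.normal_bijective K Ω Ω φ), ?_⟩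
  ext x
  rw [act_apply]
  exact AlgHom.liftNormal_commutes τ Ω x

open scoped Classical in
/-- sums over the automorphisms -/
theorem sum_fib (M : Type) [Field M] [Algebra K M] [Algebra M Ω] [IsScalarTower K M Ω]
    [FiniteDimensional K M] [Fintype (Ω ≃ₐ[K] Ω)] [Fintype (M →ₐ[K] Ω)] : ∃ c : ℕ, 1 ≤ c ∧
    ∀ F : (M →ₐ[K] Ω) → ℤ, ∑ g : Ω ≃ₐ[K] Ω, F (act g (IsScalarTower.toAlgHom K M Ω)) =
      c * ∑ τ, F τ := by
  classical
  let ι : M →ₐ[K] Ω := IsScalarTower.toAlgHom K M Ω
  have hcard : ∀ τ : M →ₐ[K] Ω,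
      (Finset.univ.filter fun g : Ω ≃ₐ[K] Ω => act g ι = τ).card =
        (Finset.univ.filter fun g : Ω ≃ₐ[K] Ω => act g ι = ι).card := by
    intro τ
    obtain ⟨g0, hg0⟩ := exists_act τ
    symm
    refine Finset.card_bij (fun g _ => g0 * g) ?_ ?_ ?_
    · intro g hg
      rw [Finset.mem_filter] at hg ⊢
      refine ⟨Finset.mem_univ _, ?_⟩
      rw [← hg0]
      ext x
      rw [act_apply, act_apply]
      have h1 := congrArg (fun φ : M →ₐ[K] Ω => φ x) hg.2
      simp only [act_apply] at h1
      change g0 (g (ι x)) = g0 (ι x)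
      rw [h1]
    · intro a _ b _ h
      exact mul_left_cancel h
    · intro g hg
      rw [Finset.mem_filter] at hg
      refine ⟨g0⁻¹ * g, ?_, by group⟩
      rw [Finset.mem_filter]
      refine ⟨Finset.mem_univ _, ?_⟩
      ext x
      rw [act_apply]
      have h1 := congrArg (fun φ : M →ₐ[K] Ω => φ x) hg.2
      have h2 := congrArg (fun φ : M →ₐ[K] Ω => φ x) hg0
      simp only [act_apply] at h1 h2
      change g0⁻¹ (g (ι x)) = ι x
      rw [h1, ← h2]
      change (g0⁻¹ * g0) (ι x) = ι x
      rw [inv_mul_cancel]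
      rfl
  refine ⟨(Finset.univ.filter fun g : Ω ≃ₐ[K] Ω => act g ι = ι).card, ?_, fun F => ?_⟩
  · rw [Nat.one_le_iff_ne_zero, ← Nat.pos_iff_ne_zero, Finset.card_pos]
    refine ⟨1, ?_⟩
    rw [Finset.mem_filter]
    exact ⟨Finset.mem_univ _, by ext x; rfl⟩
  · rw [← Finset.sum_fiberwise_of_maps_to (s := (Finset.univ : Finset (Ω ≃ₐ[K] Ω)))
      (t := (Finset.univ : Finset (M →ₐ[K] Ω))) (g := fun g => act g ι)
      (fun _ _ => Finset.mem_univ _), Finset.mul_sum]
    refine Finset.sum_congr rfl fun τ _ => ?_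
    rw [← hcard τ]
    have h1 : ∀ g ∈ Finset.univ.filter (fun g : Ω ≃ₐ[K] Ω => act g ι = τ),
        F (act g (IsScalarTower.toAlgHom K M Ω)) = F τ := by
      intro g hg
      rw [Finset.mem_filter] at hg
      rw [← hg.2]
    rw [Finset.sum_congr rfl h1, Finset.sum_const, nsmul_eq_mul]

/-- the number of the embeddings -/
theorem exists_enum (M : Type) [Field M] [Algebra K M] [Algebra M Ω] [IsScalarTower K M Ω]
    [FiniteDimensional K M] {d : ℕ} (hd : Module.finrank K M = d) :
    Nonempty (Fin d ≃ (M →ₐ[K] Ω)) := by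
  have : Fintype (M →ₐ[K] Ω) := Fintype.ofFinite _
  have h1 : Fintype.card (M →ₐ[K] Ω) = Module.finrank K M := by
    rw [Fintype.card_eq_nat_card]
    refine AlgHom.natCard_of_splits K M Ω fun x => ?_
    have h2 : minpoly K x = minpoly K (algebraMap M Ω x) :=
      (minpoly.algebraMap_eq (algebraMap M Ω).injective x).symm
    rw [h2]
    exact (inferInstance : Normal K Ω).splits _
  exact ⟨(Fintype.equivFinOfCardEq (h1.trans hd)).symm⟩

/-- the matrix of the conjugates of a basis is invertible -/
theorem det_ne {d : ℕ} (f : Module.Basis (Fin d) K M) (ε : Fin d ≃ (M →ₐ[K] Ω)) :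
    (Matrix.of fun i j => ε i (f j) : Matrix (Fin d) (Fin d) Ω).det ≠ 0 := by
  classical
  intro h0
  obtain ⟨v, hv0, hv⟩ := Matrix.exists_vecMul_eq_zero_iff.2 h0
  apply hv0
  have hli := (linearIndependent_algHom_toLinearMap K M Ω).comp ε ε.injective
  rw [Fintype.linearIndependent_iff] at hli
  funext i
  refine hli v ?_ i
  apply f.ext
  intro j
  have h1 := congrFun hv j
  rw [Matrix.vecMul_eq_sum] at h1
  simp only [Finset.sum_apply, Pi.smul_apply, smul_eq_mul, Pi.zero_apply, Matrix.of_apply] at h1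
  rw [LinearMap.sum_apply, LinearMap.zero_apply, ← h1]
  refine Finset.sum_congr rfl fun i _ => ?_
  rfl

/-- **The discriminant.** -/
theorem exists_disc {d : ℕ} (f : Module.Basis (Fin d) K M) (ε : Fin d ≃ (M →ₐ[K] Ω)) :
    ∃ δ : K, δ ≠ 0 ∧ algebraMap K Ω δ =
      (Matrix.of fun i j => ε i (f j) : Matrix (Fin d) (Fin d) Ω).det ^ 2 := by
  classical
  obtain ⟨δ, hδ⟩ : (Matrix.of fun i j => ε i (f j) : Matrix (Fin d) (Fin d) Ω).det ^ 2 ∈
      Set.range (algebraMap K Ω) := by
    refine (IsGalois.mem_range_algebraMap_iff_fixed _).2 fun g => ?_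
    let π : Equiv.Perm (Fin d) := (ε.trans (act g)).trans ε.symm
    have h1 : g (Matrix.of fun i j => ε i (f j) : Matrix (Fin d) (Fin d) Ω).det =
        ((Matrix.of fun i j => ε i (f j) : Matrix (Fin d) (Fin d) Ω).submatrix π id).det := by
      change (g : Ω →+* Ω) _ = _
      rw [RingHom.map_det]
      congr 1
      ext i j
      rw [RingHom.mapMatrix_apply, Matrix.map_apply, Matrix.of_apply, Matrix.submatrix_apply,
        Matrix.of_apply]
      change g (ε i (f j)) = (ε (ε.symm (act g (ε i)))) (f j)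
      rw [Equiv.apply_symm_apply]
      rfl
    rw [map_pow, h1, Matrix.det_permute, mul_pow]
    have h2 : (((Equiv.Perm.sign π : ℤˣ) : ℤ) : Ω) ^ 2 = 1 := by
      rcases Int.units_eq_one_or (Equiv.Perm.sign π) with h | h
      · rw [h]
        simp
      · rw [h]
        simp
    rw [h2, one_mul]
  refine ⟨δ, ?_, hδ⟩
  rintro rfl
  rw [map_zero] at hδ
  exact pow_ne_zero _ (det_ne f ε) hδ.symm

end

section

variable {k K M Ω : Type} [Field k] [CharZero k] [IsAlgClosed k] [Field K] [Field M] [Field Ω]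
  [Algebra k K] [Algebra k M] [Algebra k Ω] [Algebra K M] [Algebra K Ω]
  [Algebra M Ω] [IsScalarTower K M Ω] [IsScalarTower k K M] [IsScalarTower k K Ω]
  [IsScalarTower k M Ω] [FiniteDimensional K M] [FiniteDimensional K Ω] [IsGalois K Ω]

/-- a general linear combination has the minimal orders at finitely many places -/
theorem exists_general {d : ℕ} {f : Fin d → M} (hd : 0 < d) (hf : ∀ j, f j ≠ 0)
    {ι : Type} [Finite ι] (V : ι → M → Ω) (W : Place k Ω)
    (hadd : ∀ i x y, V i (x + y) = V i x + V i y) (hsmul : ∀ i (a : k) x, V i (a • x) = a • V i x)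
    (hne : ∀ i x, x ≠ 0 → V i x ≠ 0) :
    ∃ l : M, l ≠ 0 ∧ (∀ i j, W.ord (V i l) ≤ W.ord (V i (f j))) ∧
      ∀ i (N : ℤ), (∀ j, N ≤ W.ord (V i (f j))) → N ≤ W.ord (V i l) := by
  classical
  have hV0 : ∀ i, V i 0 = 0 := by
    intro i
    have h1 := hsmul i 0 0
    rwa [zero_smul, zero_smul] at h1
  have hsum : ∀ i (s : Finset (Fin d)) (c : Fin d → k),
      V i (∑ j ∈ s, c j • f j) = ∑ j ∈ s, c j • V i (f j) := by
    intro i s c
    induction s using Finset.induction_on with
    | empty => rw [Finset.sum_empty, Finset.sum_empty, hV0]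
    | insert a s ha ih => rw [Finset.sum_insert ha, Finset.sum_insert ha, hadd, hsmul, ih]
  -- the index with the minimal order
  have hmin : ∀ i, ∃ j0, ∀ j, W.ord (V i (f j0)) ≤ W.ord (V i (f j)) := by
    intro i
    have : Nonempty (Fin d) := ⟨⟨0, hd⟩⟩
    exact Finite.exists_min fun j => W.ord (V i (f j))
  choose j0 hj0 using hmin
  let T : (Fin d → k) → M := fun c => ∑ j, c j • f j
  let p : Option ι → Submodule k (Fin d → k) := fun o => match o with
    | none => { carrier := {c | T c = 0}
                add_mem' := by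
                  intro a b ha hb
                  change ∑ j, (a + b) j • f j = 0
                  simp only [Pi.add_apply, add_smul, Finset.sum_add_distrib]
                  have h1 : ∑ j, a j • f j = 0 := ha
                  have h2 : ∑ j, b j • f j = 0 := hb
                  rw [h1, h2, add_zero]
                zero_mem' := by
                  change ∑ j, (0 : Fin d → k) j • f j = 0
                  simp
                smul_mem' := by
                  intro a b hb
                  change ∑ j, (a • b) j • f j = 0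
                  simp only [Pi.smul_apply, smul_assoc, ← Finset.smul_sum]
                  have h1 : ∑ j, b j • f j = 0 := hb
                  rw [h1, smul_zero] }
    | some i => { carrier := {c | Ge W (W.ord (V i (f (j0 i))) + 1) (V i (T c))}
                  add_mem' := by
                    intro a b ha hb
                    have h1 : T (a + b) = T a + T b := by
                      change ∑ j, (a + b) j • f j = _
                      simp only [Pi.add_apply, add_smul, Finset.sum_add_distrib]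
                      rfl
                    change Ge W _ (V i (T (a + b)))
                    rw [h1, hadd]
                    exact Ge.add ha hb
                  zero_mem' := by
                    have h1 : T 0 = 0 := by
                      change ∑ j, (0 : Fin d → k) j • f j = 0
                      simp
                    change Ge W _ (V i (T 0))
                    rw [h1, hV0]
                    exact Ge.zero
                  smul_mem' := by
                    intro a b hb
                    have h1 : T (a • b) = a • T b := by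
                      change ∑ j, (a • b) j • f j = a • ∑ j, b j • f j
                      simp only [Pi.smul_apply, smul_assoc, ← Finset.smul_sum]
                    change Ge W _ (V i (T (a • b)))
                    rw [h1, hsmul, Algebra.smul_def]
                    have h2 := (Ge.const (P := W) a).mul hb
                    rwa [zero_add] at h2 }
  have hT1 : ∀ j, T (Pi.single j 1) = f j := by
    intro j
    change ∑ l, (Pi.single j 1 : Fin d → k) l • f l = f j
    rw [Finset.sum_eq_single j]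
    · rw [Pi.single_eq_same, one_smul]
    · intro b _ hb
      rw [Pi.single_eq_of_ne hb, zero_smul]
    · intro h
      exact absurd (Finset.mem_univ _) h
  obtain ⟨c, hc⟩ : ∃ c, ∀ o, c ∉ p o := by
    by_contra hcon
    push Not at hcon
    have h1 : ⋃ o, (p o : Set (Fin d → k)) = Set.univ := by
      ext c
      simpa using hcon c
    obtain ⟨o, ho⟩ := Subspace.exists_eq_top_of_iUnion_eq_univ h1
    match o with
    | none =>
      have h2 : (Pi.single ⟨0, hd⟩ 1 : Fin d → k) ∈ p none := by
        rw [ho]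
        trivial
      have h3 : T (Pi.single ⟨0, hd⟩ 1) = 0 := h2
      rw [hT1] at h3
      exact hf _ h3
    | some i =>
      have h2 : (Pi.single (j0 i) 1 : Fin d → k) ∈ p (some i) := by
        rw [ho]
        trivial
      have h3 : Ge W (W.ord (V i (f (j0 i))) + 1) (V i (T (Pi.single (j0 i) 1))) := h2
      rw [hT1] at h3
      have h4 := h3.resolve_left (hne i _ (hf _))
      omega
  have hl0 : T c ≠ 0 := fun h => hc none h
  refine ⟨T c, hl0, fun i j => ?_, fun i N hN => ?_⟩
  · have h1 : ¬ Ge W (W.ord (V i (f (j0 i))) + 1) (V i (T c)) := fun h => hc (some i) h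
    have h2 : ¬ (W.ord (V i (f (j0 i))) + 1 ≤ W.ord (V i (T c))) := fun h => h1 (Or.inr h)
    have h3 := hj0 i j
    omega
  · have h1 : Ge W N (V i (T c)) := by
      change Ge W N (V i (∑ j, c j • f j))
      rw [hsum]
      refine Ge.sum _ _ fun j _ => ?_
      rw [Algebra.smul_def]
      have h2 := (Ge.const (P := W) (c j)).mul (Or.inr (hN j) : Ge W N (V i (f j)))
      rwa [zero_add] at h2
    exact h1.resolve_left (hne i _ hl0)

/-- **The order of the discriminant.** -/
theorem disc_bound {d : ℕ} (f : Module.Basis (Fin d) K M) [Fintype (M →ₐ[K] Ω)] :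
    ∃ δ : K, δ ≠ 0 ∧ ∀ (W : Place k Ω) (e : ℕ) (g : Ω ≃ₐ[K] Ω) (ζ : k), 0 < e → g ^ e = 1 →
      IsRotAt W e g ζ → ∀ c ν : (M →ₐ[K] Ω) → ℤ,
      (∀ τ, 0 < c τ ∧ ∃ Q : Place k M, ∀ x, W.ord (τ x) = c τ * Q.ord x) →
      (∀ τ j, ν τ ≤ W.ord (τ (f j))) →
      ∑ τ, ((e : ℤ) - c τ + 2 * ν τ) ≤ W.ord (algebraMap K Ω δ) := by
  classical
  have hcK : CharZero K := charZero_of_injective_algebraMap (algebraMap k K).injective
  have hd : Module.finrank K M = d := by
    rw [Module.finrank_eq_card_basis f, Fintype.card_fin]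
  have hd0 : 0 < d := by
    rw [← hd]
    exact Module.finrank_pos
  obtain ⟨ε⟩ := exists_enum (Ω := Ω) M hd
  obtain ⟨δ, hδ0, hδ⟩ := exists_disc f ε
  refine ⟨δ, hδ0, fun W e g ζ he hg hr c ν hc hν => ?_⟩
  obtain ⟨l, hl0, hl, hlN⟩ := exists_general (k := k) (Ω := Ω) hd0 (fun j => f.ne_zero j)
    (fun (τ : M →ₐ[K] Ω) x => τ x) W (fun τ x y => map_add τ x y)
    (fun τ a x => by
      rw [Algebra.smul_def, Algebra.smul_def, map_mul, IsScalarTower.algebraMap_apply k K M,
        AlgHom.commutes, ← IsScalarTower.algebraMap_apply k K Ω])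
    (fun τ x hx => by rwa [Ne, map_eq_zero])
  have hτ0 : ∀ (τ : M →ₐ[K] Ω) x, x ≠ 0 → τ x ≠ 0 := fun τ x hx => by rwa [Ne, map_eq_zero]
  have hgord : ∀ z : Ω, W.ord (g z) = W.ord z := by
    intro z
    by_cases hz : z = 0
    · rw [hz, map_zero]
    · exact (hr.ord_eq he hz).2
  let π : Equiv.Perm (Fin d) := (ε.trans (act g)).trans ε.symm
  have hπ : ∀ i, ε (π i) = act g (ε i) := fun i => by
    change ε (ε.symm (act g (ε i))) = _
    rw [Equiv.apply_symm_apply]
  have hπr : ∀ (r : ℕ) i x, ε ((π ^ r) i) x = (g ^ r) (ε i x) := by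
    intro r
    induction r with
    | zero => intro i x; rfl
    | succ r ih =>
      intro i x
      rw [pow_succ', pow_succ']
      change ε (π ((π ^ r) i)) x = g ((g ^ r) (ε i x))
      rw [hπ, act_apply, ih]
  let gk : Ω ≃ₐ[k] Ω := AlgEquiv.restrictScalars k g
  have hgk : ∀ (r : ℕ) (z : Ω), (gk ^ r) z = (g ^ r) z := by
    intro r
    induction r with
    | zero => intro z; rfl
    | succ r ih =>
      intro z
      rw [pow_succ', pow_succ']
      change gk ((gk ^ r) z) = g ((g ^ r) z)
      rw [ih]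
      rfl
  have hrk : IsRotAt W e gk ζ := hr
  have key := det_bound (W := W) (h := gk) (ζ := ζ) he hrk (τ := π) (by
      ext i
      have h1 : ε ((π ^ e) i) = ε i := by
        ext x
        rw [hπr, hg]
        rfl
      have h2 := ε.injective h1
      rw [h2]
      rfl) (A := Matrix.of fun i j => ε i (f j)) (fun i j => by
      rw [Matrix.of_apply, Matrix.of_apply, hπ, act_apply]
      rfl) (det_ne f ε) (l := fun i => ε i l) (fun i => hτ0 _ _ hl0) (fun i => by
      rw [hπ, act_apply]
      rfl) (fun i j => by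
      rw [Matrix.of_apply]
      exact Or.inr (hl (ε i) j)) (c := fun i => c (ε i)) (fun i => by
      rw [hπ]
      obtain ⟨h1, Q1, hQ1⟩ := hc (ε i)
      obtain ⟨h2, Q2, hQ2⟩ := hc (act g (ε i))
      obtain ⟨x1, -, hx1⟩ := Q1.surj
      obtain ⟨x2, -, hx2⟩ := Q2.surj
      have h3 := hQ1 x1
      have h4 := hQ2 x1
      have h5 := hQ1 x2
      have h6 := hQ2 x2
      rw [act_apply, hgord] at h4 h6
      rw [hx1, mul_one] at h3
      rw [hx2, mul_one] at h6
      have h7 : c (act g (ε i)) ∣ c (ε i) := ⟨_, by rw [← h3, h4]⟩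
      have h8 : c (ε i) ∣ c (act g (ε i)) := ⟨_, by rw [← h6, h5]⟩
      exact Int.dvd_antisymm h2.le h1.le h7 h8) (fun i => (hc _).1.le) (fun i r hr0 hri => by
      obtain ⟨h1, Q1, hQ1⟩ := hc (ε i)
      obtain ⟨x1, hx10, hx1⟩ := Q1.surj
      have h3 := hQ1 x1
      rw [hx1, mul_one] at h3
      have h4 : (gk ^ r) (ε i x1) = ε i x1 := by
        rw [hgk, ← hπr, hri]
      have h5 := hrk.pow_dvd he (hτ0 (ε i) _ hx10) h4
      rw [h3] at h5
      have h6 : (0 : ℤ) < r * c (ε i) := mul_pos (by exact_mod_cast hr0) h1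
      exact Int.le_of_dvd h6 h5)
  have h1 : W.ord (algebraMap K Ω δ) =
      2 * W.ord (Matrix.of fun i j => ε i (f j) : Matrix (Fin d) (Fin d) Ω).det := by
    rw [hδ, W.ord_pow]
    push_cast
    ring
  rw [h1]
  refine le_trans ?_ key
  have h2 : ∑ τ, ((e : ℤ) - c τ + 2 * ν τ) = ∑ i, ((e : ℤ) - c (ε i) + 2 * ν (ε i)) :=
    (Equiv.sum_comp ε fun τ => ((e : ℤ) - c τ + 2 * ν τ)).symm
  rw [h2]
  refine Finset.sum_le_sum fun i _ => ?_
  have h3 : ν (ε i) ≤ W.ord (ε i l) := hlN (ε i) _ (hν (ε i))
  linarith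

end

end Pool.Agent.U192.NM
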