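import Pool.Agent.U192.NM.Norm
import Pool.Agent.N145.PC.Kod

/-!
Norms of pluricanonical forms: the Kodaira dimension.
-/

set_option autoImplicit false
set_option linter.overlappingInstances false
set_option linter.unusedSectionVars false

open FF Pool.Agent.W602.GT Pool.Agent.W603.LV Pool.Agent.W619.PQ Pool.Agent.Y172
open Pool.Agent.Y184.NT (trForm trForm_pluri)

namespace Pool.Agent.U192.NM

section

variable {K Ω : Type} [Field K] [Field Ω] [Algebra ℂ K] [Algebra ℂ Ω] [Algebra K Ω]
  [IsScalarTower ℂ K Ω] [FiniteDimensional K Ω] [IsGalois K Ω]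

/-- **Vector fields and norms.** If the norms of all `c - x` are constant along `D`, so is `x`. -/
theorem der_norm (D : Derivation ℂ Ω Ω) (x : Ω)
    (h : ∀ c : ℂ, D (algebraMap K Ω (Algebra.norm K (algebraMap ℂ Ω c - x))) = 0) : D x = 0 := by
  classical
  have : Fintype (Ω ≃ₐ[K] Ω) := Fintype.ofFinite _
  obtain ⟨P, hP⟩ : ∃ P : Polynomial Ω, P = ∏ g : Ω ≃ₐ[K] Ω, (Polynomial.X - Polynomial.C (g x)) :=
    ⟨_, rfl⟩
  have hPm : P.Monic := by
    rw [hP]
    exact Polynomial.monic_prod_of_monic _ _ fun g _ => Polynomial.monic_X_sub_C _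
  have hPx : P.eval x = 0 := by
    rw [hP, Polynomial.eval_prod]
    refine Finset.prod_eq_zero (Finset.mem_univ (1 : Ω ≃ₐ[K] Ω)) ?_
    rw [Polynomial.eval_sub, Polynomial.eval_X, Polynomial.eval_C]
    exact sub_self x
  have hPc : ∀ c : ℂ, P.eval (algebraMap ℂ Ω c) =
      algebraMap K Ω (Algebra.norm K (algebraMap ℂ Ω c - x)) := by
    intro c
    rw [Algebra.norm_eq_prod_automorphisms K (algebraMap ℂ Ω c - x), hP, Polynomial.eval_prod]
    refine Finset.prod_congr (by ext; simp) fun g _ => ?_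
    rw [Polynomial.eval_sub, Polynomial.eval_X, Polynomial.eval_C, map_sub,
      IsScalarTower.algebraMap_apply ℂ K Ω, AlgEquiv.commutes]
  -- the derivative of the coefficients
  obtain ⟨R, hR⟩ : ∃ R : Polynomial Ω, R = ∑ i ∈ Finset.range (P.natDegree + 1),
      Polynomial.monomial i (D (P.coeff i)) := ⟨_, rfl⟩
  have hRc : ∀ c : ℂ, R.eval (algebraMap ℂ Ω c) = 0 := by
    intro c
    rw [← h c, ← hPc, hR, Polynomial.eval_finsetSum, Polynomial.eval_eq_sum_range, map_sum]
    refine Finset.sum_congr rfl fun i _ => ?_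
    rw [Polynomial.eval_monomial, D.leibniz, ← map_pow, D.map_algebraMap, smul_zero, zero_add,
      smul_eq_mul, mul_comm]
  have hR0 : R = 0 := by
    by_contra hne
    have h1 : (Set.range (algebraMap ℂ Ω)).Infinite :=
      Set.infinite_range_of_injective (algebraMap ℂ Ω).injective
    refine h1 ((R.roots.toFinset.finite_toSet).subset ?_)
    rintro _ ⟨c, rfl⟩
    rw [Finset.mem_coe, Multiset.mem_toFinset, Polynomial.mem_roots hne]
    exact hRc c
  have hcoef : ∀ i, D (P.coeff i) = 0 := by
    intro i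
    by_cases hi : i ∈ Finset.range (P.natDegree + 1)
    · have h1 := congrArg (fun Q : Polynomial Ω => Q.coeff i) hR
      simp only [Polynomial.finsetSum_coeff, Polynomial.coeff_monomial] at h1
      rw [Finset.sum_ite_eq' , if_pos hi, hR0, Polynomial.coeff_zero] at h1
      exact h1.symm
    · rw [Finset.mem_range, not_lt] at hi
      rw [Polynomial.coeff_eq_zero_of_natDegree_lt (by omega), map_zero]
  let N0 : IntermediateField ℂ Ω :=
    { carrier := {f | D f = 0}
      mul_mem' := fun {f g} hf hg => by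
        change D (f * g) = 0
        rw [D.leibniz, show D f = 0 from hf, show D g = 0 from hg]
        simp
      add_mem' := fun {f g} hf hg => by
        change D (f + g) = 0
        rw [map_add, show D f = 0 from hf, show D g = 0 from hg, add_zero]
      algebraMap_mem' := fun c => D.map_algebraMap c
      inv_mem' := fun f hf => by
        change D f⁻¹ = 0
        rw [D.leibniz_inv, show D f = 0 from hf, smul_zero] }
  refine Pool.Agent.R882.WR.der_alg (E := N0) D (fun c hc => hc) ?_
  have h1 : P ∈ Polynomial.lifts (algebraMap N0 Ω) := by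
    rw [Polynomial.lifts_iff_coeff_lifts]
    exact fun i => ⟨⟨P.coeff i, hcoef i⟩, rfl⟩
  obtain ⟨P', hP'⟩ := (Polynomial.mem_lifts P).1 h1
  refine ⟨P', ?_, ?_⟩
  · rintro rfl
    rw [Polynomial.map_zero] at hP'
    exact hPm.ne_zero hP'.symm
  · rw [Polynomial.aeval_def, ← Polynomial.eval_map, hP', hPx]

end

section

variable {K M L Ω : Type} [Field K] [Field M] [Field L]
  [Field Ω] [Algebra ℂ K] [Algebra ℂ M] [Algebra ℂ L] [Algebra ℂ Ω] [Algebra K M] [Algebra K L]
  [Algebra K Ω] [Algebra M L] [Algebra M Ω] [Algebra L Ω]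
  [IsScalarTower ℂ K M] [IsScalarTower ℂ K L] [IsScalarTower ℂ K Ω] [IsScalarTower ℂ M L]
  [IsScalarTower ℂ M Ω] [IsScalarTower ℂ L Ω]
  [IsScalarTower K M L] [IsScalarTower K M Ω] [IsScalarTower K L Ω] [IsScalarTower M L Ω]
  [FiniteDimensional K M] [FiniteDimensional K L] [FiniteDimensional K Ω] [IsGalois K Ω]
  [Algebra.EssFiniteType ℂ K] [Algebra.EssFiniteType ℂ L]

/-- the value of a form given by a function in coordinates on a frame -/
theorem det_one' {n : ℕ} {y : Fin n → K} {D : Fin n → Derivation ℂ K K}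
    (hD : ∀ i j, D i (y j) = if i = j then 1 else 0) :
    (Matrix.of fun i j => D i (y j) : Matrix (Fin n) (Fin n) K).det = 1 := by
  have h1 : (Matrix.of fun i j => D i (y j) : Matrix (Fin n) (Fin n) K) = 1 := by
    ext i j
    rw [Matrix.of_apply, hD, Matrix.one_apply]
  rw [h1, Matrix.det_one]

/-- the `N`-fold form `t (dy) ^ N` -/
def pow_form {n : ℕ} (N : ℕ) (y : Fin n → K) (t : K) (G : Fin n → Derivation ℂ K K) : K :=
  (Matrix.of fun i j => G i (y j) : Matrix (Fin n) (Fin n) K).det ^ N * t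

theorem pow_form_pluri {n : ℕ} (N : ℕ) (y : Fin n → K) (t : K) : IsPluri N (pow_form N y t) := by
  intro A D
  have e1 : (Matrix.of fun a b => (∑ j, A a j • D j) (y b)) =
      A * Matrix.of fun a b => D a (y b) := by
    ext a b
    rw [Matrix.of_apply, Matrix.mul_apply, sum_smul_apply]
    rfl
  change (Matrix.of fun a b => (∑ j, A a j • D j) (y b)).det ^ N * t = _
  rw [e1, Matrix.det_mul, mul_pow, mul_assoc]
  rfl

/-- the form `t (dy) ^ N` is regular at `P` if its value on a regular frame is -/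
theorem pow_form_reg {n N : ℕ} {y : Fin n → K} {t : K} {P : Place ℂ K} {yP : Fin n → K}
    {DP : Fin n → Derivation ℂ K K} {i0 : Fin n} (hl : Loc P yP DP i0)
    (h : Ge P 0 (pow_form N y t DP)) : RegAt P (pow_form N y t) := by
  intro G hG
  have h1 := pluri_coord hl.bas hl.dual (pow_form_pluri N y t) G
  rw [h1]
  have h2 : Ge P 0 (Matrix.of fun i j => G i (yP j) : Matrix (Fin n) (Fin n) K).det :=
    Pool.Agent.W619.PQ.ge_det P _ fun i j => hG i _ (hl.reg j)
  have h3 := (h2.pow N).mul h
  rw [mul_zero, zero_add] at h3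
  exact h3

variable (Ω) in
include Ω in
/-- **The Kodaira dimension through norms.** -/
theorem kod_of_norm {d : ℕ} (f : Module.Basis (Fin d) K M) (E : IntermediateField ℂ L)
    {n m a : ℕ} (hm : 1 ≤ m) (hn : Algebra.trdeg ℂ L = n)
    (hfE : ∀ j, algebraMap M L (f j) ∈ E) {θ : (Fin n → Derivation ℂ L L) → L}
    (hθ : IsPluri m θ) (hθ0 : ∃ G, θ G ≠ 0) (hh : HorReg K E n m θ)
    {ι : Type} (γ : ι → L) (hγE : ∀ i, γ i ∈ E) (hγ0 : ∀ i, γ i ≠ 0)
    (hv : ∀ i, VertReg E M n m (fun j => algebraMap M L (f j)) θ (γ i))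
    {N : ℕ} (x : Fin N → L)
    (ha : Algebra.trdeg ℂ (IntermediateField.adjoin ℂ (Set.range x)) = a)
    (i1 : ι) {s : ℕ} (hs : 1 ≤ s)
    (hx : ∀ j, ∀ c : ℂ, algebraMap ℂ L c - x j ≠ 0 → ∃ i, γ i = γ i1 * (algebraMap ℂ L c - x j) ^ s) :
    KodGe ℂ K n (fun _ => False) a := by
  classical
  have hcK : CharZero K := charZero_of_injective_algebraMap (algebraMap ℂ K).injective
  have hcΩ : CharZero Ω := charZero_of_injective_algebraMap (algebraMap ℂ Ω).injective
  have hfdL : FiniteDimensional L Ω := FiniteDimensional.right K L Ω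
  have hnK : Algebra.trdeg ℂ K = n := Pool.Agent.Y184.NT.trdeg_below (K := L) hn
  obtain ⟨δ, c0, hδ0, hreg⟩ := norm_reg (k := ℂ) (K := K) (M := M) (L := L) (Ω := Ω) f
  obtain ⟨y, D, hy, hD⟩ := exists_crd hnK
  choose D' hD' using fun i => exists_lift (L := L) hnK (D i)
  have hyL : IsTranscendenceBasis ℂ (fun j => algebraMap K L (y j)) := hy.algebraMap_comp
  have hDL := lift_dual hD hD'
  have hθD : θ D' ≠ 0 := by
    obtain ⟨G, hG⟩ := hθ0
    intro h0
    apply hG
    rw [pluri_coord hyL hDL hθ G, h0, mul_zero]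
  obtain ⟨q, hq⟩ : ∃ q : ℕ, q = Module.finrank K Ω := ⟨_, rfl⟩
  have hq1 : 1 ≤ q := by
    rw [hq]
    exact Module.finrank_pos
  obtain ⟨T, hT⟩ : ∃ T : ι → K, ∀ i, T i =
      Algebra.norm K (algebraMap L Ω (γ i * θ D')) * δ ^ (m * c0) := ⟨_, fun _ => rfl⟩
  have hT0 : ∀ i, T i ≠ 0 := by
    intro i
    rw [hT]
    refine mul_ne_zero ?_ (pow_ne_zero _ hδ0)
    rw [Ne, Algebra.norm_eq_zero_iff, map_eq_zero]
    exact mul_ne_zero (hγ0 i) hθD
  -- regularity
  have hTreg : ∀ i, ∀ P : Place ℂ K, Divisorial n P → RegAt P (pow_form (m * q) y (T i)) := by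
    intro i P hP
    obtain ⟨yP, DP, i0, hl⟩ := exists_loc hnK hP
    refine pow_form_reg hl ?_
    choose DP' hDP' using fun i => exists_lift (L := L) hnK (DP i)
    obtain ⟨B, hB⟩ : ∃ B : Matrix (Fin n) (Fin n) K, B = Matrix.of fun i j => DP i (y j) :=
      ⟨_, rfl⟩
    have h1 : θ DP' = algebraMap K L (B.det ^ m) * θ D' := by
      rw [pluri_coord hyL hDL hθ DP', map_pow, RingHom.map_det]
      congr 3
      rw [hB]
      ext i j
      rw [Matrix.of_apply, RingHom.mapMatrix_apply, Matrix.map_apply, Matrix.of_apply]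
      exact hDP' i (y j)
    have hdualP := lift_dual hl.dual hDP'
    have hθP : θ DP' ≠ 0 := by
      intro h0
      apply hθD
      rw [pluri_coord (hl.bas.algebraMap_comp (A := L)) hdualP hθ D', h0, mul_zero]
    have h2 := hreg E n m hn hfE θ hθ hh (γ i) (hγ0 i) (hγE i) (hv i) P hP yP DP i0 hl DP' hDP' hθP
    have h3 : pow_form (m * q) y (T i) DP =
        Algebra.norm K (algebraMap L Ω (γ i * θ DP')) * δ ^ (m * c0) := by
      have h4 : algebraMap L Ω (γ i * θ DP') =
          algebraMap K Ω (B.det ^ m) * algebraMap L Ω (γ i * θ D') := by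
        rw [h1, IsScalarTower.algebraMap_apply K L Ω, ← map_mul]
        congr 1
        ring
      have h5 : Algebra.norm K (algebraMap K Ω (B.det ^ m) * algebraMap L Ω (γ i * θ D')) =
          (B.det ^ m) ^ q * Algebra.norm K (algebraMap L Ω (γ i * θ D')) := by
        rw [MonoidHom.map_mul, Algebra.norm_algebraMap, ← hq]
      rw [pow_form, ← hB, hT, h4, h5, ← pow_mul, mul_assoc]
    rw [h3]
    exact Or.inr h2
  -- the ratios
  obtain ⟨s', hs0, hind⟩ := Pool.Agent.R882.LT.exists_ratios_d (L := K) (K := L) (d := a) hnK ha T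
    ⟨i1, hT0 i1⟩ (fun G hG G' hG' j => by
      obtain ⟨G'', hG''⟩ := exists_lift (L := Ω) hn G'
      have h1 : G'' (algebraMap L Ω (x j)) = 0 := by
        refine der_norm (K := K) G'' _ fun c => ?_
        have hGK : ∀ z : K, G'' (algebraMap K Ω z) = algebraMap K Ω (G z) := by
          intro z
          rw [IsScalarTower.algebraMap_apply K L Ω, hG'', hG',
            ← IsScalarTower.algebraMap_apply K L Ω]
        rw [hGK]
        by_cases h0 : algebraMap ℂ L c - x j = 0
        · have h2 : algebraMap ℂ Ω c - algebraMap L Ω (x j) = 0 := by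
            rw [IsScalarTower.algebraMap_apply ℂ L Ω, ← map_sub, h0, map_zero]
          rw [h2, Algebra.norm_zero, map_zero, map_zero]
        · obtain ⟨i, hi⟩ := hx j c h0
          have h2 : T i = T i1 * (Algebra.norm K (algebraMap ℂ Ω c - algebraMap L Ω (x j))) ^ s := by
            rw [hT, hT, hi]
            have h3 : algebraMap L Ω (γ i1 * (algebraMap ℂ L c - x j) ^ s * θ D') =
                algebraMap L Ω (γ i1 * θ D') * (algebraMap ℂ Ω c - algebraMap L Ω (x j)) ^ s := by
              rw [IsScalarTower.algebraMap_apply ℂ L Ω, ← map_sub, ← map_pow, ← map_mul]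
              congr 1
              ring
            rw [h3, map_mul, map_pow]
            ring
          obtain ⟨u, hu⟩ : ∃ u, u = Algebra.norm K (algebraMap ℂ Ω c - algebraMap L Ω (x j)) :=
            ⟨_, rfl⟩
          rw [← hu] at h2 ⊢
          have hu0 : u ≠ 0 := by
            rw [hu, Ne, Algebra.norm_eq_zero_iff, IsScalarTower.algebraMap_apply ℂ L Ω, ← map_sub,
              map_eq_zero]
            exact h0
          have h3 := hG i1 i
          rw [h2, G.leibniz, G.leibniz_pow] at h3
          simp only [smul_eq_mul, nsmul_eq_mul] at h3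
          have h4 : T i1 ^ 2 * (s * u ^ (s - 1)) * G u = 0 := by linear_combination h3
          have h5 : T i1 ^ 2 * (s * u ^ (s - 1)) ≠ 0 := by
            refine mul_ne_zero (pow_ne_zero _ (hT0 i1)) (mul_ne_zero ?_ (pow_ne_zero _ hu0))
            exact_mod_cast (by omega : s ≠ 0)
          have h6 := (mul_eq_zero.1 h4).resolve_left h5
          rw [h6, map_zero]
      rw [hG''] at h1
      exact (map_eq_zero _).1 h1)
  have hval : ∀ t, pow_form (m * q) y t D = t := by
    intro t
    rw [pow_form, det_one' hD, one_pow, one_mul]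
  refine ⟨m * q, Nat.mul_pos hm hq1, fun j => pow_form (m * q) y (T (s' j)), fun l =>
    ⟨pow_form_pluri _ y _, fun P hP D' hD' => hTreg _ P hP D' fun i =>
      Pool.Agent.TH466.QG.derReg_of_log (hD' i), fun P hP _ => hTreg _ P hP⟩, D, ?_, ?_⟩
  · change pow_form (m * q) y (T (s' 0)) D ≠ 0
    rw [hval]
    exact hs0
  · simp only [hval]
    exact hind

end

end Pool.Agent.U192.NM
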