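import Pool.Agent.U192.NM.Form
import Pool.Agent.Y174.W4

/-!
Norms of pluricanonical forms: the ramification of a generically finite map from a fibre space with
fibres of numerical dimension zero.
-/

set_option autoImplicit false
set_option linter.overlappingInstances false
set_option linter.unusedSectionVars false

open FF Pool.Agent.W602.GT Pool.Agent.W603.LV Pool.Agent.W619.PQ Pool.Agent.Y172
open Pool.Agent.W619.TW (IsSec NumNeg NumLe HasIndep Dom)
open Pool.Agent.W619.Y (BdUp)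

namespace Pool.Agent.U192.NM

section

variable {k L : Type} [Field k] [Field L] [Algebra k L]

/-- functions with different orders at a place are linearly independent over a subfield on which the
place is trivial -/
theorem indep_of_ord {E : IntermediateField k L} {Q : Place k L} (hE : ∀ z ∈ E, Q.ord z = 0)
    {N : ℕ} {u : Fin N → L} (hu0 : ∀ i, u i ≠ 0) (hu : ∀ i j, i ≠ j → Q.ord (u i) ≠ Q.ord (u j)) :
    LinearIndependent E u := by
  classical
  rw [Fintype.linearIndependent_iff]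
  intro c hc
  by_contra hcon
  push Not at hcon
  obtain ⟨i1, hi1⟩ := hcon
  obtain ⟨i0, hi0, hmin⟩ := Finset.exists_min_image (Finset.univ.filter fun i => c i ≠ 0)
    (fun i => Q.ord (u i)) ⟨i1, by rw [Finset.mem_filter]; exact ⟨Finset.mem_univ _, hi1⟩⟩
  rw [Finset.mem_filter] at hi0
  have hc0 : ((c i0 : E) : L) ≠ 0 := fun h => hi0.2 (Subtype.ext h)
  have h1 : Ge Q (Q.ord (u i0) + 1) (∑ i ∈ Finset.univ.erase i0, c i • u i) := by
    refine Ge.sum _ _ fun i hi => ?_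
    rw [Finset.mem_erase] at hi
    by_cases hci : c i = 0
    · left
      rw [hci, zero_smul]
    · right
      have h2 := hmin i (by rw [Finset.mem_filter]; exact ⟨Finset.mem_univ _, hci⟩)
      have h3 := hu i i0 hi.1
      have h4 : ((c i : E) : L) ≠ 0 := fun h => hci (Subtype.ext h)
      change Q.ord (u i0) + 1 ≤ Q.ord ((c i : L) * u i)
      rw [Q.ord_mul h4 (hu0 i), hE _ (c i).2]
      omega
  have h2 : c i0 • u i0 = -∑ i ∈ Finset.univ.erase i0, c i • u i := by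
    rw [← Finset.add_sum_erase _ _ (Finset.mem_univ i0)] at hc
    exact eq_neg_of_add_eq_zero_left hc
  have h3 : Ge Q (Q.ord (u i0) + 1) (c i0 • u i0) := by
    rw [h2]
    exact h1.neg
  change Ge Q (Q.ord (u i0) + 1) ((c i0 : L) * u i0) at h3
  have h4 := h3.resolve_left (mul_ne_zero hc0 (hu0 i0))
  rw [Q.ord_mul hc0 (hu0 i0), hE _ (c i0).2] at h4
  omega

end

section

variable {K L Λ F : Type} [Field K] [Field L] [Field Λ] [Field F] [Algebra ℂ K] [Algebra ℂ L]
  [Algebra K L] [IsScalarTower ℂ K L] [FiniteDimensional K L]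
  [Algebra.EssFiniteType ℂ K] [Algebra.EssFiniteType ℂ L] (E : IntermediateField ℂ L)
  [Algebra E Λ] [Algebra Λ F] [Algebra L F] [IsScalarTower E Λ F] [IsScalarTower E L F]
  [Algebra ℂ Λ] [Algebra ℂ F] [IsScalarTower ℂ Λ F] [IsScalarTower ℂ L F]
  [IsScalarTower ℂ E Λ]

/-- powers of sections, times powers of a regular form -/
theorem sec_pow_mul {n m m0 q : ℕ} {S : Finset L} {s θ : (Fin n → Derivation ℂ L L) → L}
    (hs : IsSec ℂ L n (fun _ => False) S m 1 s) (hθ : IsPluri m0 θ)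
    (hreg : ∀ Q : Place ℂ L, Divisorial n Q → ∀ G : Fin n → Derivation ℂ L L,
      (∀ i, DerReg Q (G i)) → Ge Q 0 (θ G)) {r : ℕ} (hr : r ≠ 0)
    [DecidableEq L] : IsSec ℂ L n (fun _ => False) (S.image fun z => z ^ r) (m * r + m0 * q) 1
      (fun G => s G ^ r * θ G ^ q) := by
  refine ⟨?_, fun Q hQ _ G hG => ?_, fun Q _ h => h.elim⟩
  · intro A G
    have h1 : s (fun i => ∑ j, A i j • G j) = A.det ^ m * s G := hs.1 A G
    have h2 : θ (fun i => ∑ j, A i j • G j) = A.det ^ m0 * θ G := hθ A G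
    change s _ ^ r * θ _ ^ q = _
    rw [h1, h2, pow_add, mul_pow, mul_pow, ← pow_mul, ← pow_mul]
    ring
  · by_cases h0 : s G ^ r * θ G ^ q = 0
    · exact Or.inl h0
    right
    have h1 : s G ^ r ≠ 0 := left_ne_zero_of_mul h0
    have h2 : θ G ^ q ≠ 0 := right_ne_zero_of_mul h0
    have h3 := ((hreg Q hQ G hG).pow q).resolve_left h2
    rw [mul_zero] at h3
    rw [Q.ord_mul h1 h2]
    have hs0 : s G ≠ 0 := fun h => h1 (by rw [h, zero_pow hr])
    obtain ⟨z, hz, hz0, hle⟩ := (hs.2.1 Q hQ (fun h => h) G hG).resolve_left hs0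
    refine ⟨z ^ r, Finset.mem_image.2 ⟨z, hz, rfl⟩, pow_ne_zero _ hz0, ?_⟩
    rw [Q.ord_pow, Q.ord_pow]
    have h4 : (r : ℤ) * Q.ord z ≤ r * Q.ord (s G) :=
      mul_le_mul_of_nonneg_left (by simpa using hle) (Int.natCast_nonneg _)
    push_cast
    linarith

/-- **The ramification.** Let `L` be the function field of the total space of a fibration with the
base `E` and the geometric generic fibre `F`, of numerical dimension at most `0`, and let `θ` be a form
which is regular over general points of the base. If `K` is the function field of a variety dominated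
by the total space whose numerical dimension is not `-∞` then `θ` vanishes along the horizontal
ramification divisors. -/
theorem horReg {d r m0 : ℕ} (hE : Algebra.trdeg ℂ E = d)
    (hn : Algebra.trdeg ℂ L = (d + (r + 1) : ℕ)) [Algebra.IsAlgebraic E Λ]
    (hgenF : IntermediateField.adjoin Λ (Set.range (algebraMap L F)) = ⊤)
    (hcl : ∀ z : L, IsAlgebraic E z → z ∈ E)
    (hnum : NumLe Λ F (r + 1) (fun _ => False) 0)
    (hK : ¬ NumNeg ℂ K (d + (r + 1)) (fun _ => False)) (hm0 : 1 ≤ m0)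
    {θ : (Fin (d + (r + 1)) → Derivation ℂ L L) → L} (hθ : IsPluri m0 θ) {γ : L} (hγ0 : γ ≠ 0)
    (hγE : γ ∈ E) (hreg : ∀ Q : Place ℂ L, Divisorial (d + (r + 1)) Q →
      ∀ G : Fin (d + (r + 1)) → Derivation ℂ L L, (∀ i, DerReg Q (G i)) → Ge Q 0 (γ * θ G)) :
    HorReg K E (d + (r + 1)) m0 θ := by
  classical
  intro P Q e hQ hQd hEQ G hG
  have hΛ0 : CharZero Λ := charZero_of_injective_algebraMap (algebraMap ℂ Λ).injective
  by_contra hcon
  push Not at hcon
  obtain ⟨hθG, hlt⟩ := hcon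
  obtain ⟨n, hnn⟩ : ∃ n, n = d + (r + 1) := ⟨_, rfl⟩
  have hnL : Algebra.trdeg ℂ L = n := by rw [hnn]; exact hn
  have hnK : Algebra.trdeg ℂ K = n := Pool.Agent.Y184.NT.trdeg_below (K := L) hnL
  subst hnn
  have hP : Divisorial (d + (r + 1)) P := divisorial_down hQ hQd
  obtain ⟨yP, DP, i0, hl⟩ := exists_loc hnK hP
  -- the frame of the fibration
  have hess : Algebra.EssFiniteType ℂ L := inferInstance
  have hLK := Pool.Agent.Y174.trdeg_LK (L := E) hE hn
  obtain ⟨t, ht⟩ := Pool.Agent.W636.PG.exists_basis ℂ E d hE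
  obtain ⟨x, hx⟩ := Pool.Agent.W636.PG.exists_basis E L (r + 1) hLK
  have hZ := Pool.Agent.Y174.basis_append ht hx
  obtain ⟨D0, hD0⟩ := Pool.Agent.W636.PG.exists_duals ℂ L (d + (r + 1)) _ hZ
  -- the sections on `K`
  have hsec : ∃ S : Finset K, ∀ m1 : ℕ, ∃ m ≥ m1,
      ∃ s : (Fin (d + (r + 1)) → Derivation ℂ K K) → K,
      IsSec ℂ K (d + (r + 1)) (fun _ => False) S m 1 s ∧ s DP ≠ 0 := by
    by_contra hcon
    push Not at hcon
    apply hK
    intro S
    obtain ⟨m1, hm1⟩ := hcon S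
    refine ⟨m1, fun m hm ⟨ω, hli, hω⟩ => ?_⟩
    have h1 := hm1 m hm (ω 0) (hω 0)
    apply hli.ne_zero 0
    funext D
    rw [Pi.zero_apply, pluri_coord hl.bas hl.dual (hω 0).1 D, h1, mul_zero]
  obtain ⟨S, hS⟩ := hsec
  obtain ⟨A, hA⟩ : ∃ A : ℤ, ∀ z ∈ S, -A ≤ P.ord z := by
    refine ⟨∑ z ∈ S, |P.ord z|, fun z hz => ?_⟩
    have h1 := Finset.single_le_sum (f := fun z => |P.ord z|) (fun i _ => abs_nonneg _) hz
    have h2 := neg_abs_le (P.ord z)
    linarith
  obtain ⟨S', hS'⟩ : ∃ S' : Finset L, S' = S.image (algebraMap K L) := ⟨_, rfl⟩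
  obtain ⟨S'', hS''⟩ : ∃ S'' : Finset L, S'' = S'.image fun z => z ^ m0 := ⟨_, rfl⟩
  obtain ⟨C, hC⟩ := Pool.Agent.Y174.fib_count (Λ := Λ) (F := F) hess hgenF
    (fun z hz => ⟨⟨z, hcl z hz.isAlgebraic⟩, rfl⟩) hE hn ht hx hD0
    Pool.Agent.Y174.isPullFib_zero (Pool.Agent.Y174.pairNum_zero.2 hnum) S''
  -- the pull-backs
  obtain ⟨pb, hpb⟩ : ∃ pb : ℕ → ((Fin (d + (r + 1)) → Derivation ℂ K K) → K) →
      (Fin (d + (r + 1)) → Derivation ℂ L L) → L, ∀ m s D, pb m s D =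
        (Matrix.of fun a b => D a (algebraMap K L (yP b)) :
          Matrix (Fin (d + (r + 1))) (Fin (d + (r + 1))) L).det ^ m * algebraMap K L (s DP) :=
    ⟨fun m s D => _, fun _ _ _ => rfl⟩
  have hpull : ∀ m s, IsSec ℂ K (d + (r + 1)) (fun _ => False) S m 1 s →
      IsSec ℂ L (d + (r + 1)) (fun _ => False) S' m 1 (pb m s) := by
    intro m s hs
    have h1 := Pool.Agent.W619.Y.pPULL.{0, 0} ℂ K L (d + (r + 1)) hnK (fun y hy => fd_basis hy)
      (fun _ => False) S m 1 yP DP hl.bas hl.dual s hs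
    have h2 : BdUp (fun _ : Place ℂ K => False) = (fun _ : Place ℂ L => False) := by
      funext w
      exact propext ⟨fun ⟨_, _, _, h⟩ => h, False.elim⟩
    rw [h2, ← hS'] at h1
    have h3 : pb m s = fun D => (Matrix.of fun a b => D a (algebraMap K L (yP b)) :
          Matrix (Fin (d + (r + 1))) (Fin (d + (r + 1))) L).det ^ m * algebraMap K L (s DP) := by
      funext D
      exact hpb m s D
    rw [h3]
    exact h1
  -- the determinant is not zero
  choose DP' hDP' using fun i => exists_lift (L := L) hnK (DP i)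
  have hdualP := lift_dual hl.dual hDP'
  have hdet : (Matrix.of fun a b => G a (algebraMap K L (yP b)) :
      Matrix (Fin (d + (r + 1))) (Fin (d + (r + 1))) L).det ≠ 0 := by
    intro h0
    apply hθG
    rw [pluri_coord (hl.bas.algebraMap_comp (A := L)) hdualP hθ G]
    have h1 : (Matrix.of fun i j => G i ((algebraMap K L ∘ yP) j) :
      Matrix (Fin (d + (r + 1))) (Fin (d + (r + 1))) L).det = 0 := h0
    rw [h1, zero_pow (by omega), zero_mul]
  obtain ⟨κ, hκ⟩ : ∃ κ, κ = (Matrix.of fun i j => G i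
      ((Fin.append (algebraMap E L ∘ t) x : Fin (d + (r + 1)) → L) j) :
      Matrix (Fin (d + (r + 1))) (Fin (d + (r + 1))) L).det := ⟨_, rfl⟩
  have hcoord : ∀ (N : ℕ) (ω : (Fin (d + (r + 1)) → Derivation ℂ L L) → L), IsPluri N ω →
      ω G = κ ^ N * ω D0 := by
    intro N ω hω
    rw [hκ]
    exact pluri_coord hZ hD0 hω G
  -- the orders
  obtain ⟨w, hw⟩ : ∃ w : ℕ → ((Fin (d + (r + 1)) → Derivation ℂ K K) → K) → ℤ,
      ∀ m s, w m s = m0 * Q.ord (pb m s G) - m * Q.ord (θ G) := ⟨_, fun _ _ => rfl⟩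
  have hwlow : ∀ m s, IsSec ℂ K (d + (r + 1)) (fun _ => False) S m 1 s → s DP ≠ 0 →
      (m : ℤ) - m0 * (e * A) ≤ w m s := by
    intro m s hs hs0
    have h1 : Ge P (-A) (s DP) := by
      obtain ⟨z, hz, hz0, hle⟩ := (hs.2.1 P hP (fun h => h) DP hl.pres).resolve_left hs0
      right
      have h2 := hA z hz
      have h3 : P.ord z ≤ P.ord (s DP) := by simpa using hle
      linarith
    have h2 := pull_reg (m := m) hQ hl hG h1
    rw [← hpb] at h2
    have h3 : pb m s G ≠ 0 := by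
      rw [hpb]
      exact mul_ne_zero (pow_ne_zero _ hdet) (by rwa [Ne, map_eq_zero])
    have h4 := h2.resolve_left h3
    rw [hw]
    have h5 : (m0 : ℤ) * (m * (e - 1) + e * -A) ≤ m0 * Q.ord (pb m s G) :=
      mul_le_mul_of_nonneg_left h4 (Int.natCast_nonneg _)
    have h6 : (m : ℤ) * 1 ≤ m * (m0 * (e - 1) - Q.ord (θ G)) :=
      mul_le_mul_of_nonneg_left (by omega) (Int.natCast_nonneg _)
    linarith
  obtain ⟨Mm, hMm⟩ : ∃ Mm : Set ℕ, Mm = {m | 1 ≤ m ∧ ∃ s : (Fin (d + (r + 1)) →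
      Derivation ℂ K K) → K, IsSec ℂ K (d + (r + 1)) (fun _ => False) S m 1 s ∧ s DP ≠ 0} :=
    ⟨_, rfl⟩
  have hchoice : ∀ m, ∃ s : (Fin (d + (r + 1)) → Derivation ℂ K K) → K, m ∈ Mm →
      IsSec ℂ K (d + (r + 1)) (fun _ => False) S m 1 s ∧ s DP ≠ 0 := by
    intro m
    by_cases h : m ∈ Mm
    · rw [hMm] at h
      obtain ⟨-, s, hs⟩ := h
      exact ⟨s, fun _ => hs⟩
    · exact ⟨0, fun h' => absurd h' h⟩
  choose s hs using hchoice
  have hinf : ((fun m => w m (s m)) '' Mm).Infinite := by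
    intro hfin
    obtain ⟨U, hU⟩ := hfin.bddAbove
    obtain ⟨m, hm, s1, hs1, hs10⟩ := hS (max 1 (U + m0 * (e * A) + 1).toNat)
    have hmM : m ∈ Mm := by
      rw [hMm]
      exact ⟨le_trans (le_max_left _ _) hm, s1, hs1, hs10⟩
    have h1 := hwlow m (s m) (hs m hmM).1 (hs m hmM).2
    have h2 : w m (s m) ≤ U := hU ⟨m, hmM, rfl⟩
    have h3 : (U + m0 * (e * A) + 1).toNat ≤ m := le_trans (le_max_right _ _) hm
    have h4 : U + m0 * (e * A) + 1 ≤ m := by
      have := Int.self_le_toNat (U + m0 * (e * A) + 1)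
      omega
    omega
  obtain ⟨T, hT, hTc⟩ := hinf.exists_subset_card_eq (C + 1)
  let ε : Fin (C + 1) ≃ T := (T.equivFinOfCardEq hTc).symm
  have hpre : ∀ i : Fin (C + 1), ∃ m ∈ Mm, w m (s m) = (ε i : ℤ) := fun i => hT (ε i).2
  choose μ hμ hwμ using hpre
  obtain ⟨N, hN⟩ : ∃ N, N = ∑ i, μ i := ⟨_, rfl⟩
  have hμN : ∀ i, μ i ≤ N := by
    intro i
    rw [hN]
    exact Finset.single_le_sum (f := μ) (fun _ _ => Nat.zero_le _) (Finset.mem_univ i)
  have hμ1 : ∀ i, 1 ≤ μ i := by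
    intro i
    have h1 := hμ i
    rw [hMm] at h1
    exact h1.1
  have hN1 : 1 ≤ N := le_trans (hμ1 0) (hμN 0)
  have hγθ : IsPluri m0 fun D => γ * θ D := by
    intro A' D
    change γ * θ _ = _
    rw [hθ]
    ring
  obtain ⟨ω, hω⟩ : ∃ ω : Fin (C + 1) → (Fin (d + (r + 1)) → Derivation ℂ L L) → L,
      ∀ i, ω i = fun D => pb (μ i) (s (μ i)) D ^ m0 * (γ * θ D) ^ (N - μ i) :=
    ⟨_, fun _ => rfl⟩
  have hωsec : ∀ i, IsSec ℂ L (d + (r + 1)) (fun _ => False) S'' (m0 * N) 1 (ω i) := by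
    intro i
    have h1 := sec_pow_mul (q := N - μ i) (hpull _ _ (hs (μ i) (hμ i)).1) hγθ hreg
      (r := m0) (by omega)
    have h2 : μ i * m0 + m0 * (N - μ i) = m0 * N := by
      rw [mul_comm (μ i) m0, ← mul_add, Nat.add_sub_cancel' (hμN i)]
    rw [h2, ← hS'', ← hω] at h1
    exact h1
  have hrk := hC (m0 * N) (C + 1) (Nat.mul_pos hm0 hN1) ω fun i =>
    Pool.Agent.Y174.sec_zero.2 (hωsec i)
  rw [pow_zero, mul_one] at hrk
  have hpb0 : ∀ i, pb (μ i) (s (μ i)) G ≠ 0 := by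
    intro i
    rw [hpb]
    exact mul_ne_zero (pow_ne_zero _ hdet) (by
      rw [Ne, map_eq_zero]
      exact (hs (μ i) (hμ i)).2)
  have hωG : ∀ i, ω i G ≠ 0 ∧ Q.ord (ω i G) = (ε i : ℤ) + N * Q.ord (θ G) := by
    intro i
    have hγθ0 : γ * θ G ≠ 0 := mul_ne_zero hγ0 hθG
    rw [hω]
    refine ⟨mul_ne_zero (pow_ne_zero _ (hpb0 i)) (pow_ne_zero _ hγθ0), ?_⟩
    rw [Q.ord_mul (pow_ne_zero _ (hpb0 i)) (pow_ne_zero _ hγθ0), Q.ord_pow, Q.ord_pow,
      Q.ord_mul hγ0 hθG, hEQ γ hγE, zero_add, ← hwμ i, hw, Nat.cast_sub (hμN i)]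
    ring
  have hu0 : ∀ i, ω i D0 ≠ 0 := by
    intro i h0
    apply (hωG i).1
    rw [hcoord _ _ (hωsec i).1, h0, mul_zero]
  have hκ0 : κ ≠ 0 := by
    intro h0
    apply hθG
    rw [hcoord _ _ hθ, h0, zero_pow (by omega), zero_mul]
  have hord : ∀ i, Q.ord (ω i D0) = (ε i : ℤ) + N * Q.ord (θ G) - (m0 * N : ℕ) * Q.ord κ := by
    intro i
    have h1 := (hωG i).2
    rw [hcoord _ _ (hωsec i).1, Q.ord_mul (pow_ne_zero _ hκ0) (hu0 i), Q.ord_pow] at h1
    linarith
  have hli : LinearIndependent E fun i => ω i D0 := by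
    refine indep_of_ord hEQ hu0 fun i j hij h => hij ?_
    rw [hord, hord] at h
    have h1 : ((ε i : T) : ℤ) = ((ε j : T) : ℤ) := by linarith
    exact ε.injective (Subtype.ext h1)
  rw [finrank_span_eq_card hli, Fintype.card_fin] at hrk
  omega

end

end Pool.Agent.U192.NM
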