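import Pool.Agent.U192.NM.Main

/-!
Norms of pluricanonical forms: the Kodaira dimension of the images of a variety.
-/

set_option autoImplicit false
set_option linter.overlappingInstances false
set_option linter.unusedSectionVars false

open FF Pool.Agent.W602.GT Pool.Agent.W603.LV Pool.Agent.W619.PQ Pool.Agent.Y172
open Pool.Agent.W619.TW (NumNeg NumLe)

namespace Pool.Agent.U192.NM

variable {K L : Type} [Field K] [Field L] [Algebra ℂ K] [Algebra ℂ L]
  [Algebra K L] [IsScalarTower ℂ K L] [FiniteDimensional K L]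
  [Algebra.EssFiniteType ℂ K] [Algebra.EssFiniteType ℂ L]

theorem dg_pos {κ : ℕ} (X : Fin κ → Finset L) (i : Fin κ) : (0 : ℤ) ≤ (dg K X i : ℤ) - 1 := by
  have h1 : 0 < dg K X i := by
    unfold dg
    exact Module.finrank_pos
  omega

/-- **The Kodaira dimension of an image.** -/
theorem kod_img {n m a : ℕ} (hm : 1 ≤ m) (hn : Algebra.trdeg ℂ L = n)
    {κ : ℕ} (X : Fin κ → Finset L) (hX : IntermediateField.adjoin ℂ (⋃ i, (X i : Set L)) = ⊤)
    {θ : Fin (a + 1) → (Fin n → Derivation ℂ L L) → L} (hθ : ∀ j, IsPluri m (θ j))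
    (hpos : ∀ j, ∀ Q : Place ℂ L, Divisorial n Q → ∀ G : Fin n → Derivation ℂ L L,
      (∀ i, DerReg Q (G i)) → θ j G ≠ 0 →
      ∑ i, 2 * m * ((dg K X i : ℤ) - 1) * pol (X i) Q ≤ Q.ord (θ j G))
    {D : Fin n → Derivation ℂ L L} (hD : θ 0 D ≠ 0)
    (hind : AlgebraicIndependent ℂ fun j : Fin a => θ j.succ D / θ 0 D) :
    KodGe ℂ K n (fun _ => False) a := by
  refine kod_of_pos (⊤ : IntermediateField ℂ L) hm hn X hX hθ (fun j Q hQ G hG hne => ?_) hD hind
    (fun _ => IntermediateField.mem_top) ?_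
  · have h1 := hpos j Q hQ G hG hne
    have h0 : (0 : ℤ) ≤ ∑ i, 2 * m * ((dg K X i : ℤ) - 1) * pol (X i) Q := by
      refine Finset.sum_nonneg fun i _ => ?_
      have := dg_pos (K := K) X i
      positivity
    refine ⟨h0.trans h1, fun c _ hc => ?_⟩
    obtain ⟨π, -, hπ⟩ := Q.surj
    have h2 := hc π IntermediateField.mem_top
    rw [hπ] at h2
    have h3 : c = 1 := Nat.dvd_one.1 (by exact_mod_cast h2)
    rw [h3]
    simpa using h1
  · intro P Q e _ _ h
    obtain ⟨π, -, hπ⟩ := Q.surj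
    have h2 := h π IntermediateField.mem_top
    omega

end Pool.Agent.U192.NM
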