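import Pool.Agent.U192.NM.Disc

/-!
Norms of pluricanonical forms: regularity.
-/

set_option autoImplicit false
set_option linter.overlappingInstances false
set_option linter.unusedSectionVars false

open FF Pool.Agent.W602.GT Pool.Agent.W603.LV Pool.Agent.W619.PQ Pool.Agent.Y172

namespace Pool.Agent.U192.NM

section

variable {k K M L Ω : Type} [Field k] [CharZero k] [IsAlgClosed k] [Field K] [Field M] [Field L]
  [Field Ω] [Algebra k K] [Algebra k M] [Algebra k L] [Algebra k Ω] [Algebra K M] [Algebra K L]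
  [Algebra K Ω] [Algebra M L] [Algebra M Ω] [Algebra L Ω]
  [IsScalarTower k K M] [IsScalarTower k K L] [IsScalarTower k K Ω] [IsScalarTower k M L]
  [IsScalarTower k M Ω] [IsScalarTower k L Ω]
  [IsScalarTower K M L] [IsScalarTower K M Ω] [IsScalarTower K L Ω] [IsScalarTower M L Ω]
  [FiniteDimensional K M] [FiniteDimensional K L] [FiniteDimensional K Ω] [IsGalois K Ω]
  [Algebra.EssFiniteType k K] [Algebra.EssFiniteType k L]

/-- the order of the values at the places where the base is not constant: `c` is the common divisor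
of the orders of the functions in `M` -/
def VertReg (E : IntermediateField k L) (M : Type) [Field M] [Algebra M L] (n m : ℕ) {d : ℕ}
    (f : Fin d → L) (θ : (Fin n → Derivation k L L) → L) (γ : L) : Prop :=
  ∀ Q : Place k L, Divisorial n Q → (∃ z ∈ E, Q.ord z ≠ 0) →
    ∀ c : ℕ, (∀ z : M, (c : ℤ) ∣ Q.ord (algebraMap M L z)) → ∀ j, ∀ G : Fin n → Derivation k L L,
    (∀ i, DerReg Q (G i)) → θ G = 0 ∨
      (m : ℤ) * (c - 1) ≤ Q.ord (θ G) + Q.ord γ + 2 * m * Q.ord (f j)

/-- the order of the values at the places where the base is constant -/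
def HorReg (K : Type) [Field K] [Algebra k K] [Algebra K L] (E : IntermediateField k L) (n m : ℕ)
    (θ : (Fin n → Derivation k L L) → L) : Prop :=
  ∀ (P : Place k K) (Q : Place k L) (e : ℕ), Over Q P e → Divisorial n Q →
    (∀ z ∈ E, Q.ord z = 0) → ∀ G : Fin n → Derivation k L L, (∀ i, DerReg Q (G i)) →
    θ G = 0 ∨ (m : ℤ) * (e - 1) ≤ Q.ord (θ G)

/-- **The estimate for one embedding.** -/
theorem local_est {E : IntermediateField k L} {n m d : ℕ} (hn : Algebra.trdeg k L = n)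
    {f : Fin d → M} (hfE : ∀ j, algebraMap M L (f j) ∈ E)
    {θ : (Fin n → Derivation k L L) → L}
    (hθ : IsPluri m θ) {γ : L} (hγ0 : γ ≠ 0) (hγE : γ ∈ E)
    (hv : VertReg E M n m (fun j => algebraMap M L (f j)) θ γ) (hh : HorReg K E n m θ)
    {P : Place k K} (hP : Divisorial n P) {y : Fin n → K} {D : Fin n → Derivation k K K}
    {i0 : Fin n} (hl : Loc P y D i0) {D' : Fin n → Derivation k L L}
    (hD' : ∀ i f, D' i (algebraMap K L f) = algebraMap K L (D i f)) (hne : θ D' ≠ 0)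
    {W : Place k Ω} {e : ℕ} (hW : Over W P e) (σ : L →ₐ[K] Ω) (τ : M →ₐ[K] Ω)
    (hτ : ∀ x : M, τ x = σ (algebraMap M L x)) {c : ℤ} (hc : 0 < c) {Q' : Place k M}
    (hQ' : ∀ x, W.ord (τ x) = c * Q'.ord x) {ν : ℤ} {j0 : Fin d} (hν : ν = W.ord (τ (f j0))) :
    -((m : ℤ) * (e - c + 2 * ν)) ≤ W.ord (σ (γ * θ D')) := by
  obtain ⟨Q, e', a, hQ, ha, hea, hord⟩ := below_emb σ hW
  have hQd : Divisorial n Q := divisorial_up hQ hP
  have ha' : (0 : ℤ) < a := by exact_mod_cast ha
  rw [hord, Q.ord_mul hγ0 hne]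
  have hν' : ν = a * Q.ord (algebraMap M L (f j0)) := by
    rw [hν, hτ, hord]
  have hee : (e : ℤ) = a * e' := by
    rw [hea]
    push_cast
    ring
  by_cases hE : ∃ z ∈ E, Q.ord z ≠ 0
  · -- the base is not constant
    obtain ⟨x1, hx10, hx1⟩ := Q'.surj
    have h1 : c = a * Q.ord (algebraMap M L x1) := by
      have h2 := hQ' x1
      rw [hx1, mul_one, hτ, hord] at h2
      exact h2.symm
    obtain ⟨c', hc'⟩ : ∃ c' : ℕ, Q.ord (algebraMap M L x1) = c' := by
      refine ⟨(Q.ord (algebraMap M L x1)).toNat, (Int.toNat_of_nonneg ?_).symm⟩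
      by_contra hcon
      push Not at hcon
      have : a * Q.ord (algebraMap M L x1) < 0 := mul_neg_of_pos_of_neg ha' hcon
      omega
    rw [hc'] at h1
    have h2 : ∀ z : M, (c' : ℤ) ∣ Q.ord (algebraMap M L z) := by
      intro z
      have h3 := hQ' z
      rw [hτ, hord, h1, mul_assoc] at h3
      exact ⟨Q'.ord z, mul_left_cancel₀ ha'.ne' h3⟩
    have h3 := down_ge hn hQ hQd hl hD' hθ (c := ((m : ℤ) * (c' - 1) - Q.ord γ -
        2 * m * Q.ord (algebraMap M L (f j0)) : ℤ)) (fun G hG => by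
      rcases hv Q hQd hE c' h2 j0 G hG with h4 | h4
      · exact Or.inl h4
      · right
        have h5 : ((m : ℤ) * (c' - 1) - Q.ord γ - 2 * m * Q.ord (algebraMap M L (f j0)) : ℤ) ≤
            Q.ord (θ G) := by linarith
        exact_mod_cast h5)
    have h4 := h3.resolve_left hne
    have h5 : ((m : ℤ) * (c' - 1) - Q.ord γ - 2 * m * Q.ord (algebraMap M L (f j0)) : ℤ) + m -
        e' * m ≤ Q.ord (θ D') := by exact_mod_cast h4
    have h6 : (m : ℤ) * (c' - e' - 2 * Q.ord (algebraMap M L (f j0))) ≤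
        Q.ord γ + Q.ord (θ D') := by linarith
    have h7 := mul_le_mul_of_nonneg_left h6 ha'.le
    rw [hν', h1, hee]
    linarith
  · -- the base is constant
    push Not at hE
    have h3 := down_ge hn hQ hQd hl hD' hθ (c := ((m : ℤ) * (e' - 1) : ℤ)) (fun G hG => by
      rcases hh P Q e' hQ hQd hE G hG with h4 | h4
      · exact Or.inl h4
      · right
        exact_mod_cast h4)
    have h4 := h3.resolve_left hne
    have h5 : ((m : ℤ) * (e' - 1) : ℤ) + m - e' * m ≤ Q.ord (θ D') := by exact_mod_cast h4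
    have h6 : 0 ≤ Q.ord (θ D') := by linarith
    rw [hE γ hγE, zero_add, hν', hE _ (hfE j0), mul_zero, mul_zero, add_zero]
    have h7 : c ≤ e := by
      obtain ⟨t, ht0, ht⟩ := P.surj
      have h8 := hQ' (algebraMap K M t)
      rw [AlgHom.commutes, hW.2, ht, mul_one] at h8
      exact Int.le_of_dvd (by exact_mod_cast hW.1) ⟨_, h8⟩
    have h8 : 0 ≤ (m : ℤ) * (e - c) := mul_nonneg (Int.natCast_nonneg _) (by omega)
    have h9 : 0 ≤ (a : ℤ) * Q.ord (θ D') := mul_nonneg ha'.le h6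
    linarith

/-- **The norm of a form is regular.** The factor `δ` is the discriminant of the basis `f`. -/
theorem norm_reg {d : ℕ} (f : Module.Basis (Fin d) K M) : ∃ (δ : K) (c0 : ℕ), δ ≠ 0 ∧
    ∀ (E : IntermediateField k L) (n m : ℕ), Algebra.trdeg k L = n →
    (∀ j, algebraMap M L (f j) ∈ E) → ∀ θ : (Fin n → Derivation k L L) → L, IsPluri m θ →
    HorReg K E n m θ → ∀ γ : L, γ ≠ 0 → γ ∈ E →
    VertReg E M n m (fun j => algebraMap M L (f j)) θ γ →
    ∀ P : Place k K, Divisorial n P → ∀ (y : Fin n → K) (D : Fin n → Derivation k K K)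
    (i0 : Fin n), Loc P y D i0 → ∀ D' : Fin n → Derivation k L L,
    (∀ i f, D' i (algebraMap K L f) = algebraMap K L (D i f)) → θ D' ≠ 0 →
    0 ≤ P.ord (Algebra.norm K (algebraMap L Ω (γ * θ D')) * δ ^ (m * c0)) := by
  classical
  have hcK : CharZero K := charZero_of_injective_algebraMap (algebraMap k K).injective
  have : Fintype (Ω ≃ₐ[K] Ω) := Fintype.ofFinite _
  have : Fintype (M →ₐ[K] Ω) := Fintype.ofFinite _
  obtain ⟨c0, hc0, hsum⟩ := sum_fib (K := K) (Ω := Ω) M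
  obtain ⟨δ, hδ0, hδ⟩ := disc_bound (k := k) (Ω := Ω) f
  refine ⟨δ, c0, hδ0, fun E n m hn hfE θ hθ hh γ hγ0 hγE hv P hP y D i0 hl D' hD' hne => ?_⟩
  obtain ⟨W, e, g, ζ, hW, hg, hr⟩ := inertia_rot (M := Ω) P
  have hd0 : 0 < d := by
    have h1 : Module.finrank K M = d := by
      rw [Module.finrank_eq_card_basis f, Fintype.card_fin]
    rw [← h1]
    exact Module.finrank_pos
  -- the numbers for the embeddings of `M`
  have hemb : ∀ τ : M →ₐ[K] Ω, ∃ (c : ℤ) (j0 : Fin d), 0 < c ∧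
      (∃ Q : Place k M, ∀ x, W.ord (τ x) = c * Q.ord x) ∧
      ∀ j, W.ord (τ (f j0)) ≤ W.ord (τ (f j)) := by
    intro τ
    obtain ⟨Q, e', a, hQ, ha, hea, hord⟩ := below_emb τ hW
    have : Nonempty (Fin d) := ⟨⟨0, hd0⟩⟩
    obtain ⟨j0, hj0⟩ := Finite.exists_min fun j => W.ord (τ (f j))
    exact ⟨a, j0, by exact_mod_cast ha, ⟨Q, hord⟩, hj0⟩
  choose c j0 hc hQ hj0 using hemb
  have h1 := hδ W e g ζ hW.1 hg hr c (fun τ => W.ord (τ (f (j0 τ)))) (fun τ => ⟨hc τ, hQ τ⟩) hj0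
  -- the sum over the automorphisms
  have h2 : ∀ h : Ω ≃ₐ[K] Ω, -((m : ℤ) * (e - c (act h (IsScalarTower.toAlgHom K M Ω)) +
      2 * W.ord ((act h (IsScalarTower.toAlgHom K M Ω))
        (f (j0 (act h (IsScalarTower.toAlgHom K M Ω))))))) ≤
      W.ord (h (algebraMap L Ω (γ * θ D'))) := by
    intro h
    obtain ⟨Q', hQ'⟩ := hQ (act h (IsScalarTower.toAlgHom K M Ω))
    have h3 := local_est (Ω := Ω) (M := M)
      (j0 := j0 (act h (IsScalarTower.toAlgHom K M Ω))) hn hfE hθ hγ0 hγE hv hh hP hl hD'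
      hne hW (act h (IsScalarTower.toAlgHom K L Ω)) (act h (IsScalarTower.toAlgHom K M Ω))
      (fun x => by
        rw [act_apply, act_apply]
        change h (algebraMap M Ω x) = h (algebraMap L Ω (algebraMap M L x))
        rw [← IsScalarTower.algebraMap_apply M L Ω]) (hc _) hQ' rfl
    exact h3
  have h3 : algebraMap K Ω (Algebra.norm K (algebraMap L Ω (γ * θ D'))) =
      ∏ h : Ω ≃ₐ[K] Ω, h (algebraMap L Ω (γ * θ D')) := by
    rw [Algebra.norm_eq_prod_automorphisms K (algebraMap L Ω (γ * θ D'))]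
    refine Finset.prod_congr ?_ fun _ _ => rfl
    ext
    simp
  have hz0 : algebraMap L Ω (γ * θ D') ≠ 0 := by
    rw [Ne, map_eq_zero]
    exact mul_ne_zero hγ0 hne
  have hN0 : Algebra.norm K (algebraMap L Ω (γ * θ D')) ≠ 0 := by
    rwa [Ne, Algebra.norm_eq_zero_iff]
  have h4 : W.ord (algebraMap K Ω (Algebra.norm K (algebraMap L Ω (γ * θ D')))) =
      ∑ h : Ω ≃ₐ[K] Ω, W.ord (h (algebraMap L Ω (γ * θ D'))) := by
    rw [h3]
    exact Pool.Agent.W619.PQ.ord_prod _ W _ fun h _ => by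
      rwa [Ne, EmbeddingLike.map_eq_zero_iff]
  have h5 : -((m : ℤ) * (c0 * W.ord (algebraMap K Ω δ))) ≤
      W.ord (algebraMap K Ω (Algebra.norm K (algebraMap L Ω (γ * θ D')))) := by
    rw [h4]
    refine le_trans ?_ (Finset.sum_le_sum fun h _ => h2 h)
    rw [Finset.sum_neg_distrib, ← Finset.mul_sum, neg_le_neg_iff]
    refine mul_le_mul_of_nonneg_left ?_ (Int.natCast_nonneg _)
    have h6 := hsum fun τ => (e : ℤ) - c τ + 2 * W.ord (τ (f (j0 τ)))
    rw [h6]
    exact mul_le_mul_of_nonneg_left h1 (Int.natCast_nonneg _)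
  rw [hW.2, hW.2] at h5
  rw [P.ord_mul hN0 (pow_ne_zero _ hδ0), P.ord_pow]
  have he : (0 : ℤ) < e := by exact_mod_cast hW.1
  have h6 : 0 ≤ (e : ℤ) * (P.ord (Algebra.norm K (algebraMap L Ω (γ * θ D'))) +
      ((m * c0 : ℕ) : ℤ) * P.ord δ) := by
    have h7 : (e : ℤ) * (P.ord (Algebra.norm K (algebraMap L Ω (γ * θ D'))) +
      ((m * c0 : ℕ) : ℤ) * P.ord δ) =
      e * P.ord (Algebra.norm K (algebraMap L Ω (γ * θ D'))) + m * (c0 * (e * P.ord δ)) := by
      push_cast
      ring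
    rw [h7]
    linarith
  exact nonneg_of_mul_nonneg_right h6 he

end

end Pool.Agent.U192.NM
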