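import Pool.Agent.TH466.QG.Gal
import Pool.Agent.TH466.QG.Equiv
import Pool.Agent.Y172.Cov3
import Pool.Agent.W619.TW.Rot

/-!
Norms of pluricanonical forms: inertia in the Galois closure, and the determinant of the conjugates
of a basis at a place.
-/

set_option autoImplicit false
set_option linter.overlappingInstances false
set_option linter.unusedSectionVars false

open FF Pool.Agent.W602.GT Pool.Agent.W603.LV Pool.Agent.W619.PQ

namespace Pool.Agent.U192.NM

open Pool.Agent.TH466.QG (fixg toF toF_apply fixg_finite pullPl)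
open IntermediateField (fixedField)

/-- the fixed field is `K` -/
theorem exists_equiv' {k K M : Type} [Field k] [Field K] [Field M] [Algebra k K] [Algebra k M]
    [Algebra K M] [IsScalarTower k K M] [FiniteDimensional K M] [IsGalois K M] :
    ∃ e : fixedField (fixg k M K) ≃ₐ[k] K, ∀ z, algebraMap K M (e z) = (z : M) := by
  let φ : K →ₐ[k] M := IsScalarTower.toAlgHom k K M
  have h : φ.fieldRange = fixedField (fixg k M K) := by
    ext x
    rw [AlgHom.mem_fieldRange, IntermediateField.mem_fixedField_iff]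
    constructor
    · rintro ⟨y, rfl⟩ g hg
      exact hg y
    · intro hx
      have h1 : x ∈ Set.range (algebraMap K M) := by
        rw [IsGalois.mem_range_algebraMap_iff_fixed]
        intro g
        exact hx (g.restrictScalars k) fun y => g.commutes y
      exact h1
  let e1 : K ≃ₐ[k] φ.fieldRange := AlgEquiv.ofInjectiveField φ
  let e2 : φ.fieldRange ≃ₐ[k] fixedField (fixg k M K) := IntermediateField.equivOfEq h
  refine ⟨(e1.trans e2).symm, fun z => ?_⟩
  obtain ⟨x, rfl⟩ := (e1.trans e2).surjective z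
  rw [AlgEquiv.symm_apply_apply]
  rfl

/-- the rotation property -/
def IsRotAt {k M : Type} [Field k] [Field M] [Algebra k M] (W : Place k M) (e : ℕ)
    (h : M → M) (ζ : k) : Prop :=
  IsPrimitiveRoot ζ e ∧ ∀ z : M, z ≠ 0 →
    Ge W (W.ord z + 1) (h z - algebraMap k M (ζ ^ W.ord z) * z)

/-- places of a Galois extension, with a generator of the inertia group -/
theorem inertia_rot {k K M : Type} [Field k] [CharZero k] [IsAlgClosed k] [Field K] [Field M]
    [Algebra k K] [Algebra k M] [Algebra K M] [IsScalarTower k K M] [FiniteDimensional K M]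
    [IsGalois K M] (P : Place k K) :
    ∃ (W : Place k M) (e : ℕ) (g : M ≃ₐ[K] M) (ζ : k), Over W P e ∧ g ^ e = 1 ∧
      IsRotAt W e g ζ := by
  classical
  have hfin : Finite (fixg k M K) := fixg_finite
  obtain ⟨φ, hφ⟩ := exists_equiv' (k := k) (K := K) (M := M)
  obtain ⟨W, e, I, hWv, hcard, hI⟩ := exists_inertia (fixg k M K) (pullPl φ P)
  obtain ⟨g, hg, hgo, ζ, hζ, hrot⟩ := Pool.Agent.W619.TW.exists_rot_generator W I hI
  have hO : Over W P e := by
    refine ⟨hWv.1, fun x => ?_⟩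
    have h1 := hWv.2 (φ.symm x)
    have h2 : algebraMap (fixedField (fixg k M K)) M (φ.symm x) = algebraMap K M x := by
      rw [← φ.apply_symm_apply x, hφ, φ.apply_symm_apply]
      rfl
    rw [h2] at h1
    have h3 : (pullPl φ P).ord (φ.symm x) = P.ord x := by
      change P.ord (φ (φ.symm x)) = _
      rw [φ.apply_symm_apply]
    rw [h3] at h1
    exact h1
  rw [hcard] at hgo hζ
  refine ⟨W, e, toF g, ζ, hO, ?_, hζ, hrot⟩
  apply AlgEquiv.ext
  intro x
  have h1 : (g : M ≃ₐ[k] M) ^ e = 1 := by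
    rw [← hgo]
    exact pow_orderOf_eq_one _
  have h2 : ∀ n : ℕ, ∀ y : M, ((toF g) ^ n) y = ((g : M ≃ₐ[k] M) ^ n) y := by
    intro n
    induction n with
    | zero => intro y; rfl
    | succ n ih =>
      intro y
      rw [pow_succ, pow_succ]
      change ((toF g) ^ n) (toF g y) = ((g : M ≃ₐ[k] M) ^ n) ((g : M ≃ₐ[k] M) y)
      rw [ih, toF_apply]
  rw [h2, h1]
  rfl

section

variable {k M : Type} [Field k] [Field M] [Algebra k M] {W : Place k M} {e : ℕ} {ζ : k}

theorem IsRotAt.ne {h : M → M} (hr : IsRotAt W e h ζ) (he : 0 < e) : ζ ≠ 0 := by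
  rintro rfl
  have h1 := hr.1.pow_eq_one
  rw [zero_pow he.ne'] at h1
  exact zero_ne_one h1

theorem IsRotAt.ord_eq {h : M → M} (hr : IsRotAt W e h ζ) (he : 0 < e) {z : M} (hz : z ≠ 0) :
    h z ≠ 0 ∧ W.ord (h z) = W.ord z := by
  have hζ := hr.ne he
  have h1 := hr.2 z hz
  have h2 : algebraMap k M (ζ ^ W.ord z) * z ≠ 0 :=
    mul_ne_zero (by rw [Ne, map_eq_zero]; exact zpow_ne_zero _ hζ) hz
  have h3 : W.ord (algebraMap k M (ζ ^ W.ord z) * z) = W.ord z := by
    rw [W.ord_mul (by rw [Ne, map_eq_zero]; exact zpow_ne_zero _ hζ) hz,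
      W.ord_const (zpow_ne_zero _ hζ), zero_add]
  rcases h1 with h4 | h4
  · have h5 : h z = algebraMap k M (ζ ^ W.ord z) * z := sub_eq_zero.1 h4
    rw [h5]
    exact ⟨h2, h3⟩
  · by_cases h6 : h z - algebraMap k M (ζ ^ W.ord z) * z = 0
    · have h5 : h z = algebraMap k M (ζ ^ W.ord z) * z := sub_eq_zero.1 h6
      rw [h5]
      exact ⟨h2, h3⟩
    · have h5 := W.ord_add_eq h2 h6 (by rw [h3]; omega)
      rw [add_sub_cancel, h3] at h5
      exact h5

/-- the rotation numbers of the fixed elements -/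
theorem IsRotAt.dvd {h : M ≃ₐ[k] M} (hr : IsRotAt W e h ζ) (he : 0 < e) {a : ℕ} {z : M}
    (hz : z ≠ 0) (hza : h z = algebraMap k M (ζ ^ a) * z) : (e : ℤ) ∣ W.ord z - a := by
  have hζ := hr.ne he
  have h1 := hr.2 z hz
  rw [hza, ← sub_mul, ← map_sub] at h1
  by_cases h2 : ζ ^ a - ζ ^ W.ord z = 0
  · have h3 : ζ ^ (W.ord z - a) = 1 := by
      rw [zpow_sub₀ hζ, zpow_natCast, ← sub_eq_zero.1 h2]
      exact div_self (pow_ne_zero _ hζ)
    exact (hr.1.zpow_eq_one_iff_dvd _).1 h3
  · exfalso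
    have h3 : algebraMap k M (ζ ^ a - ζ ^ W.ord z) ≠ 0 := by rwa [Ne, map_eq_zero]
    have h4 := h1.resolve_left (mul_ne_zero h3 hz)
    rw [W.ord_mul h3 hz, W.ord_const h2, zero_add] at h4
    omega

/-- the powers of the rotation -/
theorem IsRotAt.pow_dvd {h : M ≃ₐ[k] M} (hr : IsRotAt W e h ζ) (he : 0 < e) {r : ℕ} {z : M}
    (hz : z ≠ 0) (hzr : (h ^ r) z = z) : (e : ℤ) ∣ r * W.ord z := by
  have hζ := hr.ne he
  -- by induction the powers act as the powers of the root of unity on the graded pieces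
  have h1 : ∀ n : ℕ, Ge W (W.ord z + 1)
      ((h ^ n) z - algebraMap k M (ζ ^ (n * W.ord z)) * z) := by
    intro n
    induction n with
    | zero =>
      left
      rw [pow_zero, Nat.cast_zero, zero_mul, zpow_zero, map_one, one_mul]
      exact sub_self z
    | succ n ih =>
      have h2 : (h ^ (n + 1)) z = h ((h ^ n) z) := by
        rw [pow_succ']
        rfl
      have h3 : h ((h ^ n) z) = h ((h ^ n) z - algebraMap k M (ζ ^ (n * W.ord z)) * z) +
          algebraMap k M (ζ ^ (n * W.ord z)) * h z := by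
        rw [map_sub, map_mul, AlgEquiv.commutes]
        ring
      have h4 : Ge W (W.ord z + 1)
          (h ((h ^ n) z - algebraMap k M (ζ ^ (n * W.ord z)) * z)) := by
        by_cases h5 : (h ^ n) z - algebraMap k M (ζ ^ (n * W.ord z)) * z = 0
        · left
          rw [h5, map_zero]
        · right
          rw [(hr.ord_eq he h5).2]
          exact ih.resolve_left h5
      have h5 : Ge W (W.ord z + 1) (algebraMap k M (ζ ^ (n * W.ord z)) *
          (h z - algebraMap k M (ζ ^ W.ord z) * z)) := by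
        have h6 := (Ge.const (P := W) (ζ ^ (n * W.ord z))).mul (hr.2 z hz)
        rwa [zero_add] at h6
      have h6 := h4.add h5
      convert h6 using 1
      rw [h2, h3]
      have h7 : algebraMap k M (ζ ^ (((n + 1 : ℕ) : ℤ) * W.ord z)) =
          algebraMap k M (ζ ^ (n * W.ord z)) * algebraMap k M (ζ ^ W.ord z) := by
        rw [← map_mul, ← zpow_add₀ hζ]
        congr 2
        push_cast
        ring
      rw [h7]
      ring
  have h2 := h1 r
  rw [hzr] at h2
  have h3 : z - algebraMap k M (ζ ^ (r * W.ord z)) * z =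
      algebraMap k M (1 - ζ ^ (r * W.ord z)) * z := by
    rw [map_sub, map_one]
    ring
  rw [h3] at h2
  by_cases h4 : (1 : k) - ζ ^ (r * W.ord z) = 0
  · exact (hr.1.zpow_eq_one_iff_dvd _).1 (sub_eq_zero.1 h4).symm
  · exfalso
    have h5 : algebraMap k M (1 - ζ ^ (r * W.ord z)) ≠ 0 := by rwa [Ne, map_eq_zero]
    have h6 := h2.resolve_left (mul_ne_zero h5 hz)
    rw [W.ord_mul h5 hz, W.ord_const h4, zero_add] at h6
    omega

end

section

/-- **The determinant of the conjugates of a basis at a place.** -/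
theorem det_bound {k M : Type} [Field k] [CharZero k] [IsAlgClosed k] [Field M] [Algebra k M]
    {n e : ℕ} {W : Place k M} {h : M ≃ₐ[k] M} {ζ : k} (he : 0 < e) (hr : IsRotAt W e h ζ)
    {τ : Equiv.Perm (Fin n)} (hτ : τ ^ e = 1) {A : Matrix (Fin n) (Fin n) M}
    (hA : ∀ i j, h (A i j) = A (τ i) j) (hdet : A.det ≠ 0) {l : Fin n → M} (hl0 : ∀ i, l i ≠ 0)
    (hl : ∀ i, h (l i) = l (τ i)) (hle : ∀ i j, Ge W (W.ord (l i)) (A i j)) {c : Fin n → ℤ}
    (hcτ : ∀ i, c (τ i) = c i) (hc0 : ∀ i, 0 ≤ c i)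
    (hc : ∀ i, ∀ r : ℕ, 0 < r → (τ ^ r) i = i → (e : ℤ) ≤ r * c i) :
    ∑ i, ((e : ℤ) - c i + 2 * W.ord (l i)) ≤ 2 * W.ord A.det := by
  classical
  obtain ⟨B, hB⟩ : ∃ B : Matrix (Fin n) (Fin n) M, B = Matrix.of fun i j => (l i)⁻¹ * A i j :=
    ⟨_, rfl⟩
  have hBdet : B.det = (∏ i, (l i)⁻¹) * A.det := by
    rw [hB]
    exact Matrix.det_mul_column (fun i => (l i)⁻¹) A
  have hprod : (∏ i, (l i)⁻¹) ≠ 0 := Finset.prod_ne_zero_iff.2 fun i _ => inv_ne_zero (hl0 i)
  have hB0 : B.det ≠ 0 := by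
    rw [hBdet]
    exact mul_ne_zero hprod hdet
  have hordB : W.ord B.det = W.ord A.det - ∑ i, W.ord (l i) := by
    rw [hBdet, W.ord_mul hprod hdet, Pool.Agent.W619.PQ.ord_prod _ W _ fun i _ =>
      inv_ne_zero (hl0 i)]
    simp only [W.ord_inv, Finset.sum_neg_distrib]
    ring
  -- the rows are permuted by the rotation
  let ε : Fin (0 + n) ≃ Fin n := finCongr (Nat.zero_add n)
  have hε : ∀ i : Fin n, ε (Fin.natAdd 0 i) = i := by
    intro i
    apply Fin.ext
    simp [ε]
  have hreg : ∀ i j, Ge W 0 (B i j) := by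
    intro i j
    rw [hB, Matrix.of_apply]
    have h1 : Ge W (-W.ord (l i)) (l i)⁻¹ := Or.inr (by rw [W.ord_inv])
    have h2 := h1.mul (hle i j)
    rwa [neg_add_cancel] at h2
  have key := Pool.Agent.W619.Y.pDET2.{0, 0} k M 0 n e W h ζ τ (B.submatrix ε ε) he hr.1
    (fun a x hx hxa => hr.dvd he hx hxa) hτ (fun i j => by
      rw [Matrix.submatrix_apply, Matrix.submatrix_apply, hε, hε, hB, Matrix.of_apply,
        Matrix.of_apply, map_mul, map_inv₀, hA, hl]) (fun i j => hreg _ _) (by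
      rw [Matrix.det_submatrix_equiv_self]
      exact hB0)
  rw [Matrix.det_submatrix_equiv_self, hordB] at key
  -- the number of the orbits
  have horb := Pool.Agent.W619.Y.pORB n 1 e 1 τ Set.univ c c (fun i => by simp) hcτ hc0
    (fun i _ => le_rfl) (fun i _ r hr0 hri => hc i r hr0 hri)
  simp only [Set.mem_univ, true_and] at horb
  rw [Finset.sum_add_distrib, Finset.sum_sub_distrib, Finset.sum_const, Finset.card_univ,
    Fintype.card_fin, nsmul_eq_mul, ← Finset.mul_sum]
  push_cast at key horb ⊢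
  linarith

end

end Pool.Agent.U192.NM
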