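import Pool.Agent.U192.NM.Hor

/-!
Norms of pluricanonical forms: bases with bounded poles.
-/

set_option autoImplicit false
set_option linter.overlappingInstances false
set_option linter.unusedSectionVars false

open FF Pool.Agent.W602.GT Pool.Agent.W603.LV Pool.Agent.W619.PQ Pool.Agent.Y172

namespace Pool.Agent.U192.NM

section

variable {K L : Type} [Field K] [Field L] [Algebra K L] [FiniteDimensional K L]

/-- an increasing sequence of subspaces which is constant once it stops -/
theorem chain_stop {V : ℕ → Submodule K L} (h0 : V 0 ≠ ⊥) (hmono : ∀ r, V r ≤ V (r + 1))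
    (hstop : ∀ r, V (r + 1) = V r → V (r + 2) = V (r + 1)) {e : ℕ} {T : Submodule K L}
    (hT : Module.finrank K T = e) (hVT : ∀ r, V r ≤ T) : ∀ s, V s ≤ V (e - 1) := by
  have hst : ∀ r, V (r + 1) = V r → ∀ s, r ≤ s → V s = V r := by
    intro r hr s hs
    have h1 : ∀ t, V (r + t + 1) = V (r + t) := by
      intro t
      induction t with
      | zero => exact hr
      | succ t ih => exact hstop _ ih
    obtain ⟨t, rfl⟩ := Nat.exists_eq_add_of_le hs
    clear hs
    induction t with
    | zero => rfl
    | succ t ih => rw [← add_assoc, h1, ih]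
  have hle : Monotone V := monotone_nat_of_le_succ hmono
  -- it stops before `e`
  obtain ⟨r, hr, hr1⟩ : ∃ r, r ≤ e - 1 ∧ V (r + 1) = V r := by
    by_contra hcon
    push Not at hcon
    have h1 : ∀ r, r ≤ e → r + 1 ≤ Module.finrank K (V r) := by
      intro r
      induction r with
      | zero =>
        intro _
        rw [zero_add, Nat.one_le_iff_ne_zero, Ne, Submodule.finrank_eq_zero]
        exact h0
      | succ r ih =>
        intro hr
        have h2 := ih (by omega)
        have h3 : V r < V (r + 1) := lt_of_le_of_ne (hmono r) (Ne.symm (hcon r (by omega)))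
        have h4 := Submodule.finrank_lt_finrank_of_lt h3
        omega
    have h2 := h1 e le_rfl
    have h3 := Submodule.finrank_mono (hVT e)
    omega
  intro s
  rcases le_total s (e - 1) with h | h
  · exact hle h
  · rw [hst r hr1 s (by omega), ← hst r hr1 (e - 1) hr]

/-- the elements of a finite extension are polynomials of small degree in the generators -/
theorem adjoin_le_pow (X : Set L) {e : ℕ}
    (he : Module.finrank K (IntermediateField.adjoin K X) = e) :
    ∀ z ∈ IntermediateField.adjoin K X, z ∈ (Submodule.span K (insert 1 X)) ^ (e - 1) := by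
  obtain ⟨U, hU⟩ : ∃ U : Submodule K L, U = Submodule.span K (insert 1 X) := ⟨_, rfl⟩
  obtain ⟨A, hA⟩ : ∃ A : Subalgebra K L, A = Algebra.adjoin K X := ⟨_, rfl⟩
  have h1U : (1 : L) ∈ U := by
    rw [hU]
    exact Submodule.subset_span (Set.mem_insert _ _)
  have hmono : ∀ r, U ^ r ≤ U ^ (r + 1) := by
    intro r z hz
    rw [pow_succ, ← mul_one z]
    exact Submodule.mul_mem_mul hz h1U
  have hfield : ∀ z, z ∈ IntermediateField.adjoin K X ↔ z ∈ A := by
    intro z
    rw [hA, ← IntermediateField.adjoin_toSubalgebra_of_isAlgebraic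
      (fun x _ => Algebra.IsAlgebraic.isAlgebraic x)]
    rfl
  have hUA : ∀ r, U ^ r ≤ Subalgebra.toSubmodule A := by
    intro r
    induction r with
    | zero =>
      rw [pow_zero, Submodule.one_le]
      exact one_mem A
    | succ r ih =>
      rw [pow_succ, Submodule.mul_le]
      intro a ha b hb
      refine mul_mem (S := Subalgebra K L) (s := A) (ih ha) ?_
      have h2 : U ≤ Subalgebra.toSubmodule A := by
        rw [hU, Submodule.span_le]
        rintro x (rfl | hx)
        · exact one_mem A
        · rw [hA]
          exact Algebra.subset_adjoin hx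
      exact h2 hb
  have hT : Module.finrank K (Subalgebra.toSubmodule A) = e := by
    rw [← he]
    have h2 : Subalgebra.toSubmodule A =
        Subalgebra.toSubmodule (IntermediateField.adjoin K X).toSubalgebra := by
      ext z
      exact (hfield z).symm
    rw [h2]
    rfl
  have key := chain_stop (V := fun r => U ^ r) (by
      intro h
      have h2 : (1 : L) ∈ U ^ 0 := by
        rw [pow_zero]
        exact Submodule.one_le.1 le_rfl
      rw [show U ^ 0 = ⊥ from h, Submodule.mem_bot] at h2
      exact one_ne_zero h2) hmono (fun r hr => by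
      rw [pow_succ U (r + 1), show U ^ (r + 1) = U ^ r from hr, ← pow_succ]
      exact hr) hT hUA
  intro z hz
  rw [hfield, hA] at hz
  rw [← hU]
  -- the union of the powers is a subalgebra
  have h2 : ∃ s, z ∈ U ^ s := by
    induction hz using Algebra.adjoin_induction with
    | mem x hx =>
      refine ⟨1, ?_⟩
      rw [pow_one, hU]
      exact Submodule.subset_span (Set.mem_insert_of_mem _ hx)
    | algebraMap r =>
      refine ⟨0, ?_⟩
      rw [pow_zero]
      exact Submodule.algebraMap_mem r
    | add x y _ _ hx hy =>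
      obtain ⟨s, hs⟩ := hx
      obtain ⟨t, ht⟩ := hy
      have hle : Monotone fun r => U ^ r := monotone_nat_of_le_succ hmono
      exact ⟨max s t, add_mem (hle (le_max_left s t) hs) (hle (le_max_right s t) ht)⟩
    | mul x y _ _ hx hy =>
      obtain ⟨s, hs⟩ := hx
      obtain ⟨t, ht⟩ := hy
      refine ⟨s + t, ?_⟩
      rw [pow_add]
      exact Submodule.mul_mem_mul hs ht
  obtain ⟨s, hs⟩ := h2
  exact key s hs

end

section

variable {k : Type} [Field k]

/-- the order of the poles of the functions in `Y` along `Q` -/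
noncomputable def pol {L : Type} [Field L] [Algebra k L] (Y : Finset L) (Q : Place k L) : ℕ :=
  Y.sup fun z => (-Q.ord z).toNat

theorem pol_ge {L : Type} [Field L] [Algebra k L] {Y : Finset L} (Q : Place k L) {z : L}
    (hz : z ∈ Y) : Ge Q (-(pol Y Q : ℤ)) z := by
  right
  have h1 : (-Q.ord z).toNat ≤ pol Y Q := Finset.le_sup (f := fun z => (-Q.ord z).toNat) hz
  have h2 := Int.self_le_toNat (-Q.ord z)
  omega

variable {L : Type} [Field L] [Algebra k L] (K : Type) [Field K] [Algebra K L]

/-- the image in the product of `W` and the first `j` targets -/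
def Lv {κ : ℕ} (X : Fin κ → Finset L) (j : ℕ) : IntermediateField K L :=
  IntermediateField.adjoin K {z | ∃ i : Fin κ, i.val < j ∧ z ∈ X i}

/-- the relative degrees -/
noncomputable def dg {κ : ℕ} (X : Fin κ → Finset L) (i : Fin κ) : ℕ :=
  Module.finrank (Lv K X i) (IntermediateField.adjoin (Lv K X i) (X i : Set L))

/-- the bound for the poles -/
noncomputable def wt {κ : ℕ} (X : Fin κ → Finset L) (j : ℕ) (Q : Place k L) : ℤ :=
  ∑ i : Fin κ, if i.val < j then ((dg K X i : ℤ) - 1) * pol (X i) Q else 0

/-- functions with bounded poles -/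
def InS (E : IntermediateField k L) (w : Place k L → ℤ) : Set L :=
  {z | z ∈ E ∧ ∀ Q : Place k L, Ge Q (-w Q) z}

theorem InS.mul {E : IntermediateField k L} {w w' : Place k L → ℤ} {z z' : L}
    (hz : z ∈ InS E w) (hz' : z' ∈ InS E w') : z * z' ∈ InS E (fun Q => w Q + w' Q) := by
  refine ⟨mul_mem hz.1 hz'.1, fun Q => ?_⟩
  have h1 := (hz.2 Q).mul (hz'.2 Q)
  rw [neg_add]
  exact h1

variable [FiniteDimensional K L]

theorem pow_mem_span {κ : ℕ} {X : Fin κ → Finset L} {E : IntermediateField k L}
    (hXE : ∀ i, ∀ z ∈ X i, z ∈ E) (i : Fin κ) {w : Place k L → ℤ}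
    (hw : ∀ z ∈ Lv K X i, z ∈ Submodule.span K (InS E w)) (t : ℕ) :
    ∀ z ∈ (Submodule.span (Lv K X i) (insert 1 (X i : Set L))) ^ t,
      z ∈ Submodule.span K (InS E fun Q => w Q + t * pol (X i) Q) := by
  induction t with
  | zero =>
    intro z hz
    rw [pow_zero, Submodule.mem_one] at hz
    obtain ⟨y, rfl⟩ := hz
    have h1 := hw _ y.2
    simpa using h1
  | succ t ih =>
    intro z hz
    rw [pow_succ] at hz
    refine Submodule.mul_induction_on hz (fun a ha b hb => ?_) fun a b ha hb => add_mem ha hb
    revert a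
    refine Submodule.span_induction (p := fun b _ => ∀ a ∈ (Submodule.span (Lv K X i)
      (insert 1 (X i : Set L))) ^ t, a * b ∈ Submodule.span K
        (InS E fun Q => w Q + (t + 1 : ℕ) * pol (X i) Q)) ?_ ?_ ?_ ?_ hb
    · intro x hx a ha
      have h1 := ih a ha
      have hxS : x ∈ InS E fun Q => (pol (X i) Q : ℤ) := by
        rcases hx with rfl | hx
        · refine ⟨one_mem _, fun Q => ?_⟩
          right
          rw [Q.ord_one]
          show -((pol (X i) Q : ℕ) : ℤ) ≤ 0
          omega
        · exact ⟨hXE i x hx, fun Q => pol_ge Q hx⟩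
      refine Submodule.span_induction (p := fun a _ => a * x ∈ Submodule.span K
        (InS E fun Q => w Q + (t + 1 : ℕ) * pol (X i) Q)) ?_ ?_ ?_ ?_ h1
      · intro a ha
        have h2 := InS.mul ha hxS
        refine Submodule.subset_span ?_
        convert h2 using 2
        funext Q
        push_cast
        ring
      · rw [zero_mul]
        exact zero_mem _
      · intro a b _ _ ha hb
        rw [add_mul]
        exact add_mem ha hb
      · intro c a _ ha
        rw [smul_mul_assoc]
        exact Submodule.smul_mem _ _ ha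
    · intro a _
      rw [mul_zero]
      exact zero_mem _
    · intro x y _ _ hx hy a ha
      rw [mul_add]
      exact add_mem (hx a ha) (hy a ha)
    · intro c x _ hx a ha
      have h1 : a * (c • x) = (c • a) * x := by
        rw [mul_smul_comm, smul_mul_assoc]
      rw [h1]
      exact hx _ (Submodule.smul_mem _ _ ha)

theorem mem_span_tower {κ : ℕ} {X : Fin κ → Finset L} {E : IntermediateField k L}
    (hXE : ∀ i, ∀ z ∈ X i, z ∈ E) (j : ℕ) (hj : j ≤ κ) :
    ∀ z ∈ Lv K X j, z ∈ Submodule.span K (InS E (wt K X j)) := by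
  induction j with
  | zero =>
    intro z hz
    have h1 : Lv K X 0 = ⊥ := by
      unfold Lv
      rw [← le_bot_iff, IntermediateField.adjoin_le_iff]
      rintro z ⟨i, hi, -⟩
      exact absurd hi (Nat.not_lt_zero _)
    rw [h1, IntermediateField.mem_bot] at hz
    obtain ⟨c, rfl⟩ := hz
    rw [Algebra.algebraMap_eq_smul_one]
    refine Submodule.smul_mem _ _ (Submodule.subset_span ⟨one_mem _, fun Q => ?_⟩)
    right
    rw [Q.ord_one]
    simp [wt]
  | succ j ih =>
    intro z hz
    have hjκ : j < κ := by omega
    obtain ⟨i, hi⟩ : ∃ i : Fin κ, i = ⟨j, hjκ⟩ := ⟨_, rfl⟩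
    have hij : (i : ℕ) = j := by rw [hi]
    have hzi : z ∈ IntermediateField.adjoin (Lv K X i) (X i : Set L) := by
      have h1 : Lv K X (j + 1) ≤ (IntermediateField.adjoin (Lv K X i)
          (X i : Set L)).restrictScalars K := by
        unfold Lv
        rw [IntermediateField.adjoin_le_iff]
        rintro z ⟨i', hi', hz⟩
        change z ∈ IntermediateField.adjoin (Lv K X i) (X i : Set L)
        by_cases h : i'.val < i.val
        · have h2 : z ∈ Lv K X i := IntermediateField.subset_adjoin _ _ ⟨i', h, hz⟩
          exact (IntermediateField.adjoin (Lv K X i) (X i : Set L)).algebraMap_mem ⟨z, h2⟩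
        · have h2 : i' = i := Fin.ext (by omega)
          rw [h2] at hz
          exact IntermediateField.subset_adjoin _ _ hz
      exact h1 hz
    have h1 := adjoin_le_pow (K := Lv K X i) (X := (X i : Set L)) rfl z hzi
    have h2 := pow_mem_span K hXE i (w := wt K X j) (by
      rw [hij]
      exact ih (by omega)) _ z h1
    have hpos : 1 ≤ dg K X i := Module.finrank_pos
    have h3 : (fun Q => wt K X j Q + ((Module.finrank (Lv K X i)
        (IntermediateField.adjoin (Lv K X i) (X i : Set L)) - 1 : ℕ) : ℤ) * pol (X i) Q) =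
        wt (k := k) K X (j + 1) := by
      funext Q
      unfold wt
      have h4 : ∀ i' : Fin κ, (if i'.val < j + 1 then ((dg K X i' : ℤ) - 1) * pol (X i') Q else 0) =
          (if i'.val < j then ((dg K X i' : ℤ) - 1) * pol (X i') Q else 0) +
            if i' = i then ((dg K X i : ℤ) - 1) * pol (X i) Q else 0 := by
        intro i'
        by_cases h : i' = i
        · subst h
          rw [if_pos (by omega), if_neg (by omega), if_pos rfl, zero_add]
        · have h5 : i'.val ≠ j := fun h' => h (Fin.ext (by omega))
          rw [if_neg h, add_zero]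
          by_cases h6 : i'.val < j
          · rw [if_pos h6, if_pos (by omega)]
          · rw [if_neg h6, if_neg (by omega)]
      rw [Finset.sum_congr rfl fun i' _ => h4 i', Finset.sum_add_distrib,
        Finset.sum_ite_eq' Finset.univ i, if_pos (Finset.mem_univ _)]
      have h7 : ((dg K X i - 1 : ℕ) : ℤ) = (dg K X i : ℤ) - 1 := by
        rw [Nat.cast_sub hpos, Nat.cast_one]
      rw [← h7]
      rfl
    rw [h3] at h2
    exact h2

/-- **A basis with bounded poles.** -/
theorem exists_basis_pol {κ : ℕ} {X : Fin κ → Finset L} {E : IntermediateField k L}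
    (hXE : ∀ i, ∀ z ∈ X i, z ∈ E) (hE : ∀ z ∈ E, z ∈ Lv K X κ) :
    ∃ (d : ℕ) (f : Module.Basis (Fin d) K (Lv K X κ)), ∀ j, ((f j : Lv K X κ) : L) ∈ E ∧
      ∀ Q : Place k L, Ge Q (-wt K X κ Q) ((f j : Lv K X κ) : L) := by
  classical
  obtain ⟨T, hT⟩ : ∃ T : Set (Lv K X κ), T = {z : Lv K X κ | (z : L) ∈ InS E (wt K X κ)} :=
    ⟨_, rfl⟩
  have hspan : ⊤ ≤ Submodule.span K T := by
    intro z _
    have h1 := mem_span_tower K hXE κ le_rfl z z.2
    have h2 : Submodule.span K (InS E (wt K X κ)) =
        (Submodule.span K T).map (Lv K X κ).val.toLinearMap := by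
      rw [Submodule.map_span]
      congr 1
      ext y
      constructor
      · intro hy
        refine ⟨⟨y, hE y hy.1⟩, ?_, rfl⟩
        rw [hT]
        exact hy
      · rintro ⟨y', hy', rfl⟩
        rw [hT] at hy'
        exact hy'
    rw [h2] at h1
    obtain ⟨z', hz', he⟩ := h1
    have h3 : z' = z := Subtype.ext he
    rw [← h3]
    exact hz'
  let B := Module.Basis.ofSpan hspan
  have hfin : Finite (LinearIndepOn.extend (linearIndepOn_empty K id) (Set.empty_subset T)) :=
    Module.Finite.finite_basis B
  have := Fintype.ofFinite (LinearIndepOn.extend (linearIndepOn_empty K id) (Set.empty_subset T))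
  let ε := Fintype.equivFin (LinearIndepOn.extend (linearIndepOn_empty K id)
    (Set.empty_subset T))
  refine ⟨_, B.reindex ε, fun j => ?_⟩
  have h0 : ∀ z ∈ T, (z : L) ∈ InS E (wt K X κ) := by
    intro z hz
    rw [hT] at hz
    exact hz
  have h1 : B.reindex ε j ∈ T := by
    rw [Module.Basis.reindex_apply]
    exact Module.Basis.ofSpan_subset hspan ⟨_, rfl⟩
  exact h0 _ h1

end

end Pool.Agent.U192.NM
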